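import Mathlib

/-!
Straight-line drawings of finite graphs with natural-number coordinates, checked by evaluation.
An edge is stored as `(u, v, (xu, yu), (xv, yv))`.
-/

set_option autoImplicit false

namespace Helper183

/-- `G` can be drawn in the plane with vertices at distinct points and edges as simple arcs that meet
only at common end vertices. -/
def PlaneDrawable {V : Type} (G : SimpleGraph V) : Prop :=
  ∃ (f : V → ℝ × ℝ) (γ : V → V → ℝ → ℝ × ℝ),
      Function.Injective f ∧
      (∀ u v : V, G.Adj u v →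
        ContinuousOn (γ u v) (Set.Icc (0:ℝ) 1) ∧ Set.InjOn (γ u v) (Set.Icc (0:ℝ) 1) ∧
        γ u v 0 = f u ∧ γ u v 1 = f v ∧
        ∀ z : V, ∀ t ∈ Set.Ioo (0:ℝ) 1, γ u v t ≠ f z) ∧
      (∀ u v w x : V, G.Adj u v → G.Adj w x → s(u, v) ≠ s(w, x) →
        ∀ t ∈ Set.Ioo (0:ℝ) 1, ∀ r ∈ Set.Icc (0:ℝ) 1, γ u v t ≠ γ w x r)

abbrev Pt := ℕ × ℕ

/-- an edge: two labels and two points -/
structure Seg where
  u : ℕ
  v : ℕ
  a : ℕ
  b : ℕ
  c : ℕ
  d : ℕ

/-- `ccw px py qx qy rx ry`: the triangle pqr is positively oriented -/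
def ccw (px py qx qy rx ry : ℕ) : Bool :=
  Nat.blt (py * qx + (qy * rx + ry * px)) (px * qy + (qx * ry + rx * py))

/-- both points r, s are strictly on the same side of the line pq -/
def sameSide (px py qx qy rx ry sx sy : ℕ) : Bool :=
  (ccw px py qx qy rx ry && ccw px py qx qy sx sy) || (ccw qx qy px py rx ry && ccw qx qy px py sx sy)

/-- strictly separated in the first (or second) coordinate -/
def lt4 (p q r s : ℕ) : Bool := Nat.blt p r && Nat.blt p s && Nat.blt q r && Nat.blt q s

def sep (e f : Seg) : Bool :=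
  lt4 e.a e.c f.a f.c || lt4 f.a f.c e.a e.c || lt4 e.b e.d f.b f.d || lt4 f.b f.d e.b e.d ||
  sameSide e.a e.b e.c e.d f.a f.b f.c f.d || sameSide f.a f.b f.c f.d e.a e.b e.c e.d

/-- non-collinear -/
def nonc (px py qx qy rx ry : ℕ) : Bool := ccw px py qx qy rx ry || ccw qx qy px py rx ry

def okPair (e f : Seg) : Bool :=
  cond (Nat.beq e.u f.u) (nonc e.a e.b e.c e.d f.c f.d)
  (cond (Nat.beq e.u f.v) (nonc e.a e.b e.c e.d f.a f.b)
  (cond (Nat.beq e.v f.u) (nonc e.c e.d e.a e.b f.c f.d)
  (cond (Nat.beq e.v f.v) (nonc e.c e.d e.a e.b f.a f.b) (sep e f))))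

def pairwiseOk : List Seg → Bool
  | [] => true
  | e :: t => t.all (okPair e) && pairwiseOk t

/-- the point at parameter `t` on the segment -/
noncomputable def Seg.at (e : Seg) (t : ℝ) : ℝ × ℝ :=
  ((1 - t) * (e.a : ℝ) + t * (e.c : ℝ), (1 - t) * (e.b : ℝ) + t * (e.d : ℝ))

/-- two segments meet only in a common labelled end point -/
def Rel (e f : Seg) : Prop :=
  ∀ t ∈ Set.Icc (0:ℝ) 1, ∀ r ∈ Set.Icc (0:ℝ) 1, e.at t = f.at r →
    ∃ z : ℕ, ((z = e.u ∧ t = 0) ∨ (z = e.v ∧ t = 1)) ∧ ((z = f.u ∧ r = 0) ∨ (z = f.v ∧ r = 1))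

theorem Rel.symm {e f : Seg} (h : Rel e f) : Rel f e := by
  intro t ht r hr heq
  obtain ⟨z, h1, h2⟩ := h r hr t ht heq.symm
  exact ⟨z, h2, h1⟩

def orient (px py qx qy rx ry : ℝ) : ℝ := (px * qy + (qx * ry + rx * py)) - (py * qx + (qy * rx + ry * px))

theorem ccw_pos {px py qx qy rx ry : ℕ} (h : ccw px py qx qy rx ry = true) :
    0 < orient px py qx qy rx ry := by
  unfold ccw at h
  rw [Nat.blt_eq] at h
  unfold orient
  have : ((py * qx + (qy * rx + ry * px) : ℕ) : ℝ) < ((px * qy + (qx * ry + rx * py) : ℕ) : ℝ) := by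
    exact_mod_cast h
  push_cast at this
  linarith

theorem orient_swap (px py qx qy rx ry : ℝ) : orient qx qy px py rx ry = - orient px py qx qy rx ry := by
  unfold orient; ring

theorem nonc_ne {px py qx qy rx ry : ℕ} (h : nonc px py qx qy rx ry = true) :
    orient px py qx qy rx ry ≠ 0 := by
  unfold nonc at h
  rw [Bool.or_eq_true] at h
  rcases h with h | h
  · exact (ccw_pos h).ne'
  · have := ccw_pos h
    rw [orient_swap] at this
    intro h0; rw [h0] at this; simp at this

/-- if two segments share their first endpoint and are not collinear then they meet only there -/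
theorem share_aux {px py qx qy rx ry : ℝ} (h : orient px py qx qy rx ry ≠ 0) {t r : ℝ}
    (h1 : (1 - t) * px + t * qx = (1 - r) * px + r * rx)
    (h2 : (1 - t) * py + t * qy = (1 - r) * py + r * ry) : t = 0 ∧ r = 0 := by
  have e1 : r * orient px py qx qy rx ry = 0 := by
    unfold orient
    linear_combination (qy - py) * h1 - (qx - px) * h2
  have e2 : t * orient px py qx qy rx ry = 0 := by
    unfold orient
    linear_combination (ry - py) * h1 - (rx - px) * h2
  constructor
  · rcases mul_eq_zero.1 e2 with h' | h'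
    · exact h'
    · exact absurd h' h
  · rcases mul_eq_zero.1 e1 with h' | h'
    · exact h'
    · exact absurd h' h

theorem sameSide_aux {px py qx qy rx ry sx sy t r : ℝ} (hr : r ∈ Set.Icc (0:ℝ) 1)
    (h1 : (1 - t) * px + t * qx = (1 - r) * rx + r * sx)
    (h2 : (1 - t) * py + t * qy = (1 - r) * ry + r * sy)
    (ho : 0 < orient px py qx qy rx ry) (ho' : 0 < orient px py qx qy sx sy) : False := by
  have e : (1 - r) * orient px py qx qy rx ry + r * orient px py qx qy sx sy = 0 := by
    unfold orient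
    linear_combination (qy - py) * h1 - (qx - px) * h2
  have hr0 := hr.1
  have hr1 := hr.2
  rcases lt_or_eq_of_le hr0 with h | h
  · have : 0 < r * orient px py qx qy sx sy := mul_pos h ho'
    have : 0 ≤ (1 - r) * orient px py qx qy rx ry := mul_nonneg (by linarith) ho.le
    linarith
  · subst h
    simp at e
    linarith

theorem sameSide_false {px py qx qy rx ry sx sy : ℕ} {t r : ℝ} (hr : r ∈ Set.Icc (0:ℝ) 1)
    (h1 : (1 - t) * px + t * qx = (1 - r) * rx + r * sx)
    (h2 : (1 - t) * py + t * qy = (1 - r) * ry + r * sy)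
    (h : sameSide px py qx qy rx ry sx sy = true) : False := by
  unfold sameSide at h
  rw [Bool.or_eq_true, Bool.and_eq_true, Bool.and_eq_true] at h
  rcases h with ⟨ha, hb⟩ | ⟨ha, hb⟩
  · exact sameSide_aux hr h1 h2 (ccw_pos ha) (ccw_pos hb)
  · refine sameSide_aux (t := 1 - t) hr ?_ ?_ (ccw_pos ha) (ccw_pos hb)
    · linarith
    · linarith

theorem lt4_false {p q r s : ℕ} {t w : ℝ} (ht : t ∈ Set.Icc (0:ℝ) 1) (hw : w ∈ Set.Icc (0:ℝ) 1)
    (h1 : (1 - t) * (p:ℝ) + t * q = (1 - w) * r + w * s) (h : lt4 p q r s = true) : False := by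
  unfold lt4 at h
  simp only [Bool.and_eq_true, Nat.blt_eq] at h
  obtain ⟨⟨⟨h1', h2'⟩, h3'⟩, h4'⟩ := h
  have a1 : (p:ℝ) < r := by exact_mod_cast h1'
  have a2 : (p:ℝ) < s := by exact_mod_cast h2'
  have a3 : (q:ℝ) < r := by exact_mod_cast h3'
  have a4 : (q:ℝ) < s := by exact_mod_cast h4'
  obtain ⟨ht0, ht1⟩ := ht
  obtain ⟨hw0, hw1⟩ := hw
  have hm : (max (p:ℝ) q) < min (r:ℝ) s := by
    rw [max_lt_iff, lt_min_iff, lt_min_iff]; exact ⟨⟨a1, a2⟩, ⟨a3, a4⟩⟩
  have hl : (1 - t) * (p:ℝ) + t * q ≤ max (p:ℝ) q := by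
    have u1 := le_max_left (p:ℝ) q
    have u2 := le_max_right (p:ℝ) q
    nlinarith [mul_le_mul_of_nonneg_left u1 (sub_nonneg.2 ht1), mul_le_mul_of_nonneg_left u2 ht0]
  have hr : min (r:ℝ) s ≤ (1 - w) * r + w * s := by
    have u1 := min_le_left (r:ℝ) s
    have u2 := min_le_right (r:ℝ) s
    nlinarith [mul_le_mul_of_nonneg_left u1 (sub_nonneg.2 hw1), mul_le_mul_of_nonneg_left u2 hw0]
  linarith

theorem sep_false {e f : Seg} {t r : ℝ} (ht : t ∈ Set.Icc (0:ℝ) 1) (hr : r ∈ Set.Icc (0:ℝ) 1)
    (heq : e.at t = f.at r) (h : sep e f = true) : False := by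
  unfold Seg.at at heq
  have h1 := congrArg Prod.fst heq
  have h2 := congrArg Prod.snd heq
  simp only at h1 h2
  unfold sep at h
  simp only [Bool.or_eq_true] at h
  rcases h with ((((h | h) | h) | h) | h) | h
  · exact lt4_false ht hr h1 h
  · exact lt4_false hr ht h1.symm h
  · exact lt4_false ht hr h2 h
  · exact lt4_false hr ht h2.symm h
  · exact sameSide_false hr h1 h2 h
  · exact sameSide_false ht h1.symm h2.symm h

/-- consistency of a segment with coordinate functions -/
def Seg.cons (X Y : ℕ → ℕ) (e : Seg) : Prop := e.a = X e.u ∧ e.b = Y e.u ∧ e.c = X e.v ∧ e.d = Y e.v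

theorem okPair_rel {X Y : ℕ → ℕ} {e f : Seg} (he : e.cons X Y) (hf : f.cons X Y)
    (h : okPair e f = true) : Rel e f := by
  obtain ⟨eu, ev, ea, eb, ec, ed⟩ := e
  obtain ⟨fu, fv, fa, fb, fc, fd⟩ := f
  obtain ⟨he1, he2, he3, he4⟩ := he
  obtain ⟨hf1, hf2, hf3, hf4⟩ := hf
  simp only at he1 he2 he3 he4 hf1 hf2 hf3 hf4
  intro t ht r hr heq
  have h1 := congrArg Prod.fst heq
  have h2 := congrArg Prod.snd heq
  simp only [Seg.at] at h1 h2
  unfold okPair at h
  simp only at h ⊢
  rcases hb1 : Nat.beq eu fu with _ | _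
  · rw [hb1] at h
    simp only [cond_false] at h
    rcases hb2 : Nat.beq eu fv with _ | _
    · rw [hb2] at h
      simp only [cond_false] at h
      rcases hb3 : Nat.beq ev fu with _ | _
      · rw [hb3] at h
        simp only [cond_false] at h
        rcases hb4 : Nat.beq ev fv with _ | _
        · rw [hb4] at h
          simp only [cond_false] at h
          exact (sep_false ht hr heq h).elim
        · rw [hb4] at h
          simp only [cond_true] at h
          have huv : ev = fv := Nat.eq_of_beq_eq_true hb4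
          subst huv
          have hn := nonc_ne h
          have hc : ec = fc := by rw [he3, hf3]
          have hd : ed = fd := by rw [he4, hf4]
          subst hc; subst hd
          have := share_aux (t := 1 - t) (r := 1 - r) hn (by linarith) (by linarith)
          refine ⟨ev, Or.inr ⟨rfl, by linarith [this.1]⟩, Or.inr ⟨rfl, by linarith [this.2]⟩⟩
      · rw [hb3] at h
        simp only [cond_true] at h
        have huv : ev = fu := Nat.eq_of_beq_eq_true hb3
        subst huv
        have hn := nonc_ne h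
        have hc : ec = fa := by rw [he3, hf1]
        have hd : ed = fb := by rw [he4, hf2]
        subst hc; subst hd
        have := share_aux (t := 1 - t) (r := r) hn (by linarith) (by linarith)
        refine ⟨ev, Or.inr ⟨rfl, by linarith [this.1]⟩, Or.inl ⟨rfl, this.2⟩⟩
    · rw [hb2] at h
      simp only [cond_true] at h
      have huv : eu = fv := Nat.eq_of_beq_eq_true hb2
      subst huv
      have hn := nonc_ne h
      have hc : ea = fc := by rw [he1, hf3]
      have hd : eb = fd := by rw [he2, hf4]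
      subst hc; subst hd
      have := share_aux (t := t) (r := 1 - r) hn (by linarith) (by linarith)
      refine ⟨eu, Or.inl ⟨rfl, this.1⟩, Or.inr ⟨rfl, by linarith [this.2]⟩⟩
  · rw [hb1] at h
    simp only [cond_true] at h
    have huv : eu = fu := Nat.eq_of_beq_eq_true hb1
    subst huv
    have hn := nonc_ne h
    have hc : ea = fa := by rw [he1, hf1]
    have hd : eb = fb := by rw [he2, hf2]
    subst hc; subst hd
    have := share_aux (t := t) (r := r) hn (by linarith) (by linarith)
    exact ⟨eu, Or.inl ⟨rfl, this.1⟩, Or.inl ⟨rfl, this.2⟩⟩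

theorem pairwise_rel {X Y : ℕ → ℕ} (es : List Seg) (hc : ∀ e ∈ es, e.cons X Y)
    (h : pairwiseOk es = true) : es.Pairwise Rel := by
  induction es with
  | nil => exact List.Pairwise.nil
  | cons e t ih =>
    unfold pairwiseOk at h
    rw [Bool.and_eq_true, List.all_eq_true] at h
    refine List.Pairwise.cons ?_ (ih (fun f hf => hc f (List.mem_cons_of_mem _ hf)) h.2)
    intro f hf
    exact okPair_rel (hc e List.mem_cons_self) (hc f (List.mem_cons_of_mem _ hf)) (h.1 f hf)

/-- the graph on `Fin n` with edge list `es` -/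
def gr (n : ℕ) (es : List Seg) : SimpleGraph (Fin n) :=
  SimpleGraph.fromRel (fun x y => ∃ e ∈ es, e.u = x.1 ∧ e.v = y.1)

theorem gr_adj {n : ℕ} {es : List Seg} {x y : Fin n} (h : (gr n es).Adj x y) :
    ∃ e ∈ es, (e.u = x.1 ∧ e.v = y.1) ∨ (e.u = y.1 ∧ e.v = x.1) := by
  unfold gr at h
  rw [SimpleGraph.fromRel_adj] at h
  rcases h.2 with ⟨e, he, h1⟩ | ⟨e, he, h1⟩
  · exact ⟨e, he, Or.inl h1⟩
  · exact ⟨e, he, Or.inr h1⟩

/-- endpoints have different coordinates and different labels -/
def nondeg (e : Seg) : Bool := (!(Nat.beq e.a e.c) || !(Nat.beq e.b e.d)) && !(Nat.beq e.u e.v)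

theorem beq_false_ne {a b : ℕ} (h : (!(Nat.beq a b)) = true) : a ≠ b := by
  intro hab
  subst hab
  simp at h

theorem at_inj {e : Seg} (h : nondeg e = true) {t r : ℝ} (heq : e.at t = e.at r) : t = r := by
  unfold nondeg at h
  rw [Bool.and_eq_true, Bool.or_eq_true] at h
  unfold Seg.at at heq
  have h1 := congrArg Prod.fst heq
  have h2 := congrArg Prod.snd heq
  simp only at h1 h2
  rcases h.1 with h' | h'
  · have hne := beq_false_ne h'
    have hne' : (e.a : ℝ) - e.c ≠ 0 := by
      intro h0; apply hne; have : (e.a:ℝ) = e.c := by linarith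
      exact_mod_cast this
    have : (t - r) * ((e.a : ℝ) - e.c) = 0 := by linear_combination -h1
    rcases mul_eq_zero.1 this with h0 | h0
    · linarith
    · exact absurd h0 hne'
  · have hne := beq_false_ne h'
    have hne' : (e.b : ℝ) - e.d ≠ 0 := by
      intro h0; apply hne; have : (e.b:ℝ) = e.d := by linarith
      exact_mod_cast this
    have : (t - r) * ((e.b : ℝ) - e.d) = 0 := by linear_combination -h2
    rcases mul_eq_zero.1 this with h0 | h0
    · linarith
    · exact absurd h0 hne'

theorem plane_of_rel {n : ℕ} {es : List Seg} {X Y : ℕ → ℕ} (hc : ∀ e ∈ es, e.cons X Y)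
    (hpw : es.Pairwise Rel) (hnd : es.all nondeg = true)
    (hcov : ∀ z : Fin n, ∃ e ∈ es, (e.u = z.1 ∧ e.v < n) ∨ (e.v = z.1 ∧ e.u < n)) :
    PlaneDrawable (gr n es) := by
  classical
  have hrel : ∀ e ∈ es, ∀ f ∈ es, e ≠ f → Rel e f := by
    intro e he f hf hne
    have : Std.Symm Rel := ⟨fun _ _ h => h.symm⟩
    exact hpw.forall he hf hne
  have hnd' : ∀ e ∈ es, nondeg e = true := by
    intro e he; exact (List.all_eq_true.1 hnd) e he
  let f : Fin n → ℝ × ℝ := fun z => ((X z.1 : ℝ), (Y z.1 : ℝ))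
  let γ : Fin n → Fin n → ℝ → ℝ × ℝ := fun u v t =>
    ((1 - t) * (X u.1 : ℝ) + t * (X v.1 : ℝ), (1 - t) * (Y u.1 : ℝ) + t * (Y v.1 : ℝ))
  -- relation between γ and segments
  have hseg : ∀ (u v : Fin n) (e : Seg), e ∈ es → (e.u = u.1 ∧ e.v = v.1) → ∀ t, γ u v t = e.at t := by
    intro u v e he huv t
    obtain ⟨h1, h2, h3, h4⟩ := hc e he
    simp only [γ, Seg.at]
    rw [h1, h2, h3, h4, huv.1, huv.2]
  have hseg' : ∀ (u v : Fin n) (e : Seg), e ∈ es → (e.u = v.1 ∧ e.v = u.1) → ∀ t, γ u v t = e.at (1 - t) := by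
    intro u v e he huv t
    obtain ⟨h1, h2, h3, h4⟩ := hc e he
    simp only [γ, Seg.at]
    rw [h1, h2, h3, h4, huv.1, huv.2]
    ext
    · simp only; ring
    · simp only; ring
  have hg0 : ∀ u v, γ u v 0 = f u := by intro u v; simp [γ, f]
  have hg1 : ∀ u v, γ u v 1 = f v := by intro u v; simp [γ, f]
  -- injectivity along an edge
  have hinj : ∀ u v : Fin n, (gr n es).Adj u v → Function.Injective (γ u v) := by
    intro u v h t r htr
    obtain ⟨e, he, h1 | h1⟩ := gr_adj h
    · rw [hseg u v e he h1, hseg u v e he h1] at htr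
      exact at_inj (hnd' e he) htr
    · rw [hseg' u v e he h1, hseg' u v e he h1] at htr
      have := at_inj (hnd' e he) htr
      linarith
  -- general crossing statement
  have hcross : ∀ u v w x : Fin n, (gr n es).Adj u v → (gr n es).Adj w x → s(u, v) ≠ s(w, x) →
      ∀ t ∈ Set.Ioo (0:ℝ) 1, ∀ r ∈ Set.Icc (0:ℝ) 1, γ u v t ≠ γ w x r := by
    intro u v w x huv hwx hne t ht r hr heq
    obtain ⟨e, he, h1⟩ := gr_adj huv
    obtain ⟨g, hg, h2⟩ := gr_adj hwx
    have heg : e ≠ g := by
      intro heg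
      subst heg
      apply hne
      rcases h1 with h1 | h1 <;> rcases h2 with h2 | h2
      · have a : u = w := Fin.ext (by omega)
        have b : v = x := Fin.ext (by omega)
        rw [a, b]
      · have a : u = x := Fin.ext (by omega)
        have b : v = w := Fin.ext (by omega)
        rw [a, b, Sym2.eq_swap]
      · have a : u = x := Fin.ext (by omega)
        have b : v = w := Fin.ext (by omega)
        rw [a, b, Sym2.eq_swap]
      · have a : u = w := Fin.ext (by omega)
        have b : v = x := Fin.ext (by omega)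
        rw [a, b]
    have hr' := hrel e he g hg heg
    have key : ∃ t' ∈ Set.Ioo (0:ℝ) 1, ∃ r' ∈ Set.Icc (0:ℝ) 1, e.at t' = g.at r' := by
      rcases h1 with h1 | h1 <;> rcases h2 with h2 | h2
      · exact ⟨t, ht, r, hr, by rw [← hseg u v e he h1, ← hseg w x g hg h2]; exact heq⟩
      · exact ⟨t, ht, 1 - r, ⟨by linarith [hr.2], by linarith [hr.1]⟩, by
          rw [← hseg u v e he h1, ← hseg' w x g hg h2]; exact heq⟩
      · exact ⟨1 - t, ⟨by linarith [ht.2], by linarith [ht.1]⟩, r, hr, by
          rw [← hseg' u v e he h1, ← hseg w x g hg h2]; exact heq⟩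
      · exact ⟨1 - t, ⟨by linarith [ht.2], by linarith [ht.1]⟩, 1 - r,
          ⟨by linarith [hr.2], by linarith [hr.1]⟩, by
          rw [← hseg' u v e he h1, ← hseg' w x g hg h2]; exact heq⟩
    obtain ⟨t', ht', r', hr'', hh⟩ := key
    obtain ⟨z, hz, _⟩ := hr' t' ⟨ht'.1.le, ht'.2.le⟩ r' hr'' hh
    rcases hz with hz | hz
    · exact absurd hz.2 ht'.1.ne'
    · exact absurd hz.2 ht'.2.ne
  have hnb : ∀ z : Fin n, ∃ w : Fin n, (gr n es).Adj z w := by
    intro z
    obtain ⟨e, he, h1 | h1⟩ := hcov z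
    · refine ⟨⟨e.v, h1.2⟩, ?_⟩
      unfold gr
      rw [SimpleGraph.fromRel_adj]
      refine ⟨?_, Or.inl ⟨e, he, h1.1, rfl⟩⟩
      intro hz
      have h3 := hnd' e he
      unfold nondeg at h3
      rw [Bool.and_eq_true] at h3
      apply beq_false_ne h3.2
      rw [h1.1, hz]
    · refine ⟨⟨e.u, h1.2⟩, ?_⟩
      unfold gr
      rw [SimpleGraph.fromRel_adj]
      refine ⟨?_, Or.inr ⟨e, he, rfl, h1.1⟩⟩
      intro hz
      have h3 := hnd' e he
      unfold nondeg at h3
      rw [Bool.and_eq_true] at h3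
      apply beq_false_ne h3.2
      rw [h1.1, hz]
  refine ⟨f, γ, ?_, ?_, hcross⟩
  · -- injective
    intro z z' hzz
    by_contra hne
    obtain ⟨w, hw⟩ := hnb z
    obtain ⟨w', hw'⟩ := hnb z'
    obtain ⟨e, he, h1⟩ := gr_adj hw
    obtain ⟨g, hg, h2⟩ := gr_adj hw'
    by_cases heg : e = g
    · subst heg
      -- z and z' are the two ends of e
      have hz'w : z' = w := by
        rcases h1 with h1 | h1 <;> rcases h2 with h2 | h2
        · exact absurd (Fin.ext (by omega)) hne
        · exact Fin.ext (by omega)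
        · exact Fin.ext (by omega)
        · exact absurd (Fin.ext (by omega)) hne
      subst hz'w
      have := hinj z z' hw (a₁ := 0) (a₂ := 1) (by rw [hg0, hg1]; exact hzz)
      norm_num at this
    · have hr' := hrel e he g hg heg
      have h01 : (0:ℝ) ∈ Set.Icc (0:ℝ) 1 := ⟨le_refl _, zero_le_one⟩
      have h11 : (1:ℝ) ∈ Set.Icc (0:ℝ) 1 := ⟨zero_le_one, le_refl _⟩
      rcases h1 with h1 | h1 <;> rcases h2 with h2 | h2
      · obtain ⟨y, hy1, hy2⟩ := hr' 0 h01 0 h01 (by
          rw [← hseg z w e he h1, ← hseg z' w' g hg h2, hg0, hg0]; exact hzz)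
        have a : y = e.u := by rcases hy1 with h | h; exact h.1; norm_num at h
        have b : y = g.u := by rcases hy2 with h | h; exact h.1; norm_num at h
        exact hne (Fin.ext (by omega))
      · obtain ⟨y, hy1, hy2⟩ := hr' 0 h01 1 h11 (by
          rw [← hseg z w e he h1]
          have := hseg' z' w' g hg h2 0
          rw [sub_zero] at this
          rw [← this, hg0, hg0]; exact hzz)
        have a : y = e.u := by rcases hy1 with h | h; exact h.1; norm_num at h
        have b : y = g.v := by rcases hy2 with h | h; norm_num at h; exact h.1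
        exact hne (Fin.ext (by omega))
      · obtain ⟨y, hy1, hy2⟩ := hr' 1 h11 0 h01 (by
          rw [← hseg z' w' g hg h2]
          have := hseg' z w e he h1 0
          rw [sub_zero] at this
          rw [← this, hg0, hg0]; exact hzz)
        have a : y = e.v := by rcases hy1 with h | h; norm_num at h; exact h.1
        have b : y = g.u := by rcases hy2 with h | h; exact h.1; norm_num at h
        exact hne (Fin.ext (by omega))
      · obtain ⟨y, hy1, hy2⟩ := hr' 1 h11 1 h11 (by
          have h3 := hseg' z w e he h1 0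
          have h4 := hseg' z' w' g hg h2 0
          rw [sub_zero] at h3 h4
          rw [← h3, ← h4, hg0, hg0]; exact hzz)
        have a : y = e.v := by rcases hy1 with h | h; norm_num at h; exact h.1
        have b : y = g.v := by rcases hy2 with h | h; norm_num at h; exact h.1
        exact hne (Fin.ext (by omega))
  · intro u v huv
    refine ⟨?_, (hinj u v huv).injOn, hg0 u v, hg1 u v, ?_⟩
    · apply Continuous.continuousOn
      simp only [γ]
      fun_prop
    · intro z t ht heq
      obtain ⟨w, hw⟩ := hnb z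
      by_cases hs : s(u, v) = s(z, w)
      · rw [Sym2.eq_iff] at hs
        rcases hs with ⟨a, _⟩ | ⟨_, a⟩
        · subst a
          have := hinj u v huv (a₁ := t) (a₂ := 0) (by rw [hg0]; exact heq)
          exact ht.1.ne' this
        · subst a
          have := hinj u v huv (a₁ := t) (a₂ := 1) (by rw [hg1]; exact heq)
          exact ht.2.ne this
      · exact hcross u v z w huv hw hs t ht 0 ⟨le_refl _, zero_le_one⟩ (by rw [hg0]; exact heq)

end Helper183
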