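import Mathlib
import Pool.Agent.W183.StraightLine

/-!
Lambda-choosability, odd wheels, and evaluation-based certificates for graphs given by edge lists.
-/

set_option autoImplicit false

namespace Helper183

/-- `G` has an odd wheel as a subgraph: an injective cycle `h` of odd length `k ≥ 3` and a further vertex
`c` adjacent to all vertices of the cycle. -/
def HasOddWheel {V : Type} (G : SimpleGraph V) : Prop :=
  ∃ k : ℕ, 3 ≤ k ∧ Odd k ∧ ∃ (c : V) (h : ZMod k → V), Function.Injective h ∧ (∀ i, h i ≠ c) ∧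
    (∀ i, G.Adj (h i) (h (i + 1))) ∧ (∀ i, G.Adj c (h i))

/-- `L` is a `ks`-assignment: every list has `ks.sum` colours and all colours can be split into disjoint
sets `C i` such that every list has exactly `ks i` colours in `C i`. -/
def LambdaAssignment {V : Type} (ks : List ℕ) (L : V → Finset ℕ) : Prop :=
  (∀ v, (L v).card = ks.sum) ∧
  ∃ C : Fin ks.length → Set ℕ, (∀ i j, i ≠ j → Disjoint (C i) (C j)) ∧
    (∀ v, ∀ c ∈ L v, ∃ i, c ∈ C i) ∧
    (∀ v i, {c : ℕ | c ∈ L v ∧ c ∈ C i}.ncard = ks.get i)

/-- every `ks`-assignment admits a proper colouring from the lists -/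
def LambdaChoosable {V : Type} (ks : List ℕ) (G : SimpleGraph V) : Prop :=
  ∀ L : V → Finset ℕ, LambdaAssignment ks L →
    ∃ φ : V → ℕ, (∀ v, φ v ∈ L v) ∧ ∀ u v, G.Adj u v → φ u ≠ φ v

/-! ### odd wheels -/

theorem parity_false {k : ℕ} (hk : Odd k) (s : ZMod k → Bool) (h : ∀ i, s i ≠ s (i + 1)) : False := by
  have key : ∀ j : ℕ, s (j : ZMod k) = (s 0 ^^ decide (Odd j)) := by
    intro j
    induction j with
    | zero => simp
    | succ j ih =>
      have h1 := h (j : ZMod k)
      have h2 : s ((j : ZMod k) + 1) = !s (j : ZMod k) := by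
        cases ha : s (j : ZMod k) <;> cases hb : s ((j : ZMod k) + 1) <;> simp_all
      push_cast
      rw [h2, ih]
      by_cases hj : Odd j
      · have : ¬ Odd (j + 1) := by rw [Nat.odd_add_one]; simpa using hj
        simp [hj, this]
      · have : Odd (j + 1) := by rw [Nat.odd_add_one]; exact hj
        simp [hj, this]
  have h0 := key k
  rw [ZMod.natCast_self] at h0
  simp [hk] at h0

def wheelOk (rs : List (ℕ × ℕ)) (e : Seg) : Bool :=
  let p := rs.getD e.u (0, 0)
  let q := rs.getD e.v (0, 0)
  p.1.testBit e.v && q.1.testBit e.u && Nat.beq ((p.1 &&& q.1) &&& (p.2 ^^^ q.2)) (p.1 &&& q.1)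

theorem noOddWheel_of_check {n : ℕ} {es : List Seg} (rs : List (ℕ × ℕ))
    (h1 : es.all (wheelOk rs) = true) : ¬ HasOddWheel (gr n es) := by
  rintro ⟨k, _, hk, c, h, _, _, hadj, hc⟩
  rw [List.all_eq_true] at h1
  -- adjacency gives bits in the rows and the relation of the side masks
  have hrow : ∀ x y : Fin n, (gr n es).Adj x y → (rs.getD x.1 (0, 0)).1.testBit y.1 = true := by
    intro x y hxy
    obtain ⟨e, he, h3 | h3⟩ := gr_adj hxy
    · have := h1 e he
      unfold wheelOk at this
      simp only [Bool.and_eq_true] at this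
      rw [← h3.1, ← h3.2]; exact this.1.1
    · have := h1 e he
      unfold wheelOk at this
      simp only [Bool.and_eq_true] at this
      rw [← h3.1, ← h3.2]; exact this.1.2
  have hside : ∀ x y : Fin n, (gr n es).Adj x y → (gr n es).Adj x c → (gr n es).Adj y c →
      (rs.getD x.1 (0, 0)).2.testBit c.1 ≠ (rs.getD y.1 (0, 0)).2.testBit c.1 := by
    intro x y hxy hx hy
    have hx' := hrow x c hx
    have hy' := hrow y c hy
    obtain ⟨e, he, h3 | h3⟩ := gr_adj hxy
    · have h4 := h1 e he
      unfold wheelOk at h4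
      simp only [Bool.and_eq_true] at h4
      have h5 := congrArg (fun m => m.testBit c.1) (Nat.eq_of_beq_eq_true h4.2)
      simp only [Nat.testBit_and, Nat.testBit_xor, h3.1, h3.2, hx', hy', Bool.and_self,
        Bool.true_and] at h5
      intro h6
      rw [h6] at h5
      simp at h5
    · have h4 := h1 e he
      unfold wheelOk at h4
      simp only [Bool.and_eq_true] at h4
      have h5 := congrArg (fun m => m.testBit c.1) (Nat.eq_of_beq_eq_true h4.2)
      simp only [Nat.testBit_and, Nat.testBit_xor, h3.1, h3.2, hx', hy', Bool.and_self,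
        Bool.true_and] at h5
      intro h6
      rw [h6] at h5
      simp at h5
  refine parity_false hk (fun i => (rs.getD (h i).1 (0, 0)).2.testBit c.1) ?_
  intro i
  exact hside (h i) (h (i + 1)) (hadj i) (hc i).symm (hc (i + 1)).symm

/-! ### the sweep -/

/-- sorted by the first coordinate, and every edge goes from left to right -/
def sortedFrom : ℕ → List Seg → Bool
  | _, [] => true
  | m, e :: t => Nat.ble m e.a && Nat.ble e.a e.c && sortedFrom e.a t

theorem sortedFrom_mem : ∀ (t : List Seg) (m : ℕ), sortedFrom m t = true →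
    ∀ e ∈ t, m ≤ e.a ∧ e.a ≤ e.c := by
  intro t
  induction t with
  | nil => intro m _ e he; simp at he
  | cons f t ih =>
    intro m h e he
    unfold sortedFrom at h
    rw [Bool.and_eq_true, Bool.and_eq_true, Nat.ble_eq, Nat.ble_eq] at h
    rcases List.mem_cons.1 he with he | he
    · rw [he]; exact h.1
    · have := ih f.a h.2 e he
      exact ⟨h.1.1.trans this.1, this.2⟩

def chk (e : Seg) : List Seg → Bool
  | [] => true
  | f :: t => Nat.blt e.c f.a || (okPair e f && chk e t)

def sweep : List Seg → Bool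
  | [] => true
  | e :: t => chk e t && sweep t

theorem rel_of_lt {e f : Seg} (h : e.c < f.a) (he : e.a ≤ e.c) (hf : f.a ≤ f.c) : Rel e f := by
  intro t ht r hr heq
  have : sep e f = true := by
    unfold sep lt4
    have h1 : Nat.blt e.a f.a = true := by rw [Nat.blt_eq]; omega
    have h2 : Nat.blt e.a f.c = true := by rw [Nat.blt_eq]; omega
    have h3 : Nat.blt e.c f.a = true := by rw [Nat.blt_eq]; omega
    have h4 : Nat.blt e.c f.c = true := by rw [Nat.blt_eq]; omega
    simp [h1, h2, h3, h4]
  exact (sep_false ht hr heq this).elim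

theorem chk_rel {X Y : ℕ → ℕ} {e : Seg} (he : e.cons X Y) (hec : e.a ≤ e.c) : ∀ (t : List Seg) (m : ℕ),
    sortedFrom m t = true → (∀ f ∈ t, f.cons X Y) → chk e t = true → ∀ f ∈ t, Rel e f := by
  intro t
  induction t with
  | nil => intro m _ _ _ f hf; simp at hf
  | cons g t ih =>
    intro m hs hc h f hf
    have hs' := hs
    unfold sortedFrom at hs'
    rw [Bool.and_eq_true, Bool.and_eq_true] at hs'
    unfold chk at h
    rw [Bool.or_eq_true, Nat.blt_eq] at h
    rcases h with h | h
    · have hg : g.a ≤ f.a ∧ f.a ≤ f.c := by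
        rcases List.mem_cons.1 hf with hf' | hf'
        · rw [hf']; exact ⟨le_refl _, (sortedFrom_mem _ _ hs g List.mem_cons_self).2⟩
        · exact sortedFrom_mem t g.a hs'.2 f hf'
      exact rel_of_lt (by omega) hec hg.2
    · rw [Bool.and_eq_true] at h
      rcases List.mem_cons.1 hf with hf' | hf'
      · rw [hf']; exact okPair_rel he (hc g List.mem_cons_self) h.1
      · exact ih g.a hs'.2 (fun f hf => hc f (List.mem_cons_of_mem _ hf)) h.2 f hf'

theorem sweep_rel {X Y : ℕ → ℕ} : ∀ (t : List Seg) (m : ℕ), sortedFrom m t = true →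
    (∀ f ∈ t, f.cons X Y) → sweep t = true → t.Pairwise Rel := by
  intro t
  induction t with
  | nil => intro _ _ _ _; exact List.Pairwise.nil
  | cons e t ih =>
    intro m hs hc h
    have hs' := hs
    unfold sortedFrom at hs'
    rw [Bool.and_eq_true, Bool.and_eq_true] at hs'
    unfold sweep at h
    rw [Bool.and_eq_true] at h
    refine List.Pairwise.cons ?_ (ih e.a hs'.2 (fun f hf => hc f (List.mem_cons_of_mem _ hf)) h.2)
    exact chk_rel (hc e List.mem_cons_self) (sortedFrom_mem _ _ hs e List.mem_cons_self).2 t e.a hs'.2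
      (fun f hf => hc f (List.mem_cons_of_mem _ hf)) h.1

/-! ### adjacency through lists of larger neighbours -/

/-- `up` lists, for each vertex in order, its larger neighbours; compare with the labels of `es` -/
def upEq : ℕ → List (List ℕ) → List Seg → Bool
  | _, [], es => es.isEmpty
  | i, l :: up, es => upRow i l es (upEq (i + 1) up)
where
  upRow (i : ℕ) : List ℕ → List Seg → (List Seg → Bool) → Bool
  | [], es, k => k es
  | y :: l, es, k => match es with
    | [] => false
    | e :: es => Nat.beq e.u i && Nat.beq e.v y && upRow i l es k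

theorem upRow_mem (i : ℕ) : ∀ (l : List ℕ) (es : List Seg) (k : List Seg → Bool),
    upEq.upRow i l es k = true → (∀ y ∈ l, ∃ e ∈ es, e.u = i ∧ e.v = y) ∧
      ∃ es', k es' = true ∧ ∀ e ∈ es', e ∈ es := by
  intro l
  induction l with
  | nil =>
    intro es k h
    unfold upEq.upRow at h
    exact ⟨fun y hy => by simp at hy, es, h, fun e he => he⟩
  | cons y l ih =>
    intro es k h
    unfold upEq.upRow at h
    cases es with
    | nil => simp at h
    | cons e es =>
      simp only [Bool.and_eq_true] at h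
      obtain ⟨h1, es', h2, h3⟩ := ih es k h.2
      refine ⟨?_, es', h2, fun e' he' => List.mem_cons_of_mem _ (h3 e' he')⟩
      intro y' hy'
      rcases List.mem_cons.1 hy' with hy' | hy'
      · exact ⟨e, List.mem_cons_self, Nat.eq_of_beq_eq_true h.1.1, by
          rw [hy']; exact Nat.eq_of_beq_eq_true h.1.2⟩
      · obtain ⟨e', he', h4⟩ := h1 y' hy'
        exact ⟨e', List.mem_cons_of_mem _ he', h4⟩

theorem upEq_mem : ∀ (up : List (List ℕ)) (i : ℕ) (es : List Seg), upEq i up es = true →
    ∀ j y, y ∈ up.getD j [] → ∃ e ∈ es, e.u = i + j ∧ e.v = y := by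
  intro up
  induction up with
  | nil => intro i es _ j y hy; simp at hy
  | cons l up ih =>
    intro i es h j y hy
    unfold upEq at h
    obtain ⟨h1, es', h2, h3⟩ := upRow_mem i l es _ h
    cases j with
    | zero =>
      simp only [List.getD_cons_zero] at hy
      simpa using h1 y hy
    | succ j =>
      simp only [List.getD_cons_succ] at hy
      obtain ⟨e, he, h4, h5⟩ := ih (i + 1) es' h2 j y hy
      exact ⟨e, h3 e he, by omega, h5⟩

/-- adjacency test: `x` and `y` in either order -/
def adjB (up : List (List ℕ)) (x y : ℕ) : Bool :=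
  cond (Nat.blt x y) ((up.getD x []).any (fun z => Nat.beq z y)) ((up.getD y []).any (fun z => Nat.beq z x))

theorem adjB_adj {n : ℕ} {es : List Seg} {up : List (List ℕ)} (hup : upEq 0 up es = true)
    (hnd : es.all nondeg = true) {x y : Fin n} (h : adjB up x.1 y.1 = true) : (gr n es).Adj x y := by
  have key : ∃ e ∈ es, (e.u = x.1 ∧ e.v = y.1) ∨ (e.u = y.1 ∧ e.v = x.1) := by
    unfold adjB at h
    cases hb : Nat.blt x.1 y.1
    · rw [hb] at h
      simp only [cond_false] at h
      rw [List.any_eq_true] at h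
      obtain ⟨z, hz, hz'⟩ := h
      obtain ⟨e, he, h1, h2⟩ := upEq_mem up 0 es hup _ _ hz
      have := Nat.eq_of_beq_eq_true hz'
      exact ⟨e, he, Or.inr ⟨by omega, by omega⟩⟩
    · rw [hb] at h
      simp only [cond_true] at h
      rw [List.any_eq_true] at h
      obtain ⟨z, hz, hz'⟩ := h
      obtain ⟨e, he, h1, h2⟩ := upEq_mem up 0 es hup _ _ hz
      have := Nat.eq_of_beq_eq_true hz'
      exact ⟨e, he, Or.inl ⟨by omega, by omega⟩⟩
  rw [List.all_eq_true] at hnd
  obtain ⟨e, he, h1⟩ := key
  have hne := hnd e he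
  unfold nondeg at hne
  rw [Bool.and_eq_true] at hne
  have hne' := beq_false_ne hne.2
  unfold gr
  rw [SimpleGraph.fromRel_adj]
  rcases h1 with h1 | h1
  · refine ⟨?_, Or.inl ⟨e, he, h1⟩⟩
    intro h8
    have := congrArg Fin.val h8
    omega
  · refine ⟨?_, Or.inr ⟨e, he, h1⟩⟩
    intro h8
    have := congrArg Fin.val h8
    omega

/-! ### exhaustive search -/

/-- a step: vertex, its list, and some neighbours of it -/
abbrev Step := ℕ × List ℕ × List ℕ

def hit (a : List (ℕ × ℕ)) (nb : List ℕ) (c : ℕ) : Bool :=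
  nb.any (fun u => a.any (fun p => Nat.beq p.1 u && Nat.beq p.2 c))

/-- true if the given partial colouring `a` has no extension to the vertices in the list of steps -/
def srch : List Step → List (ℕ × ℕ) → Bool
  | [], _ => false
  | s :: rest, a => s.2.1.all (fun c => hit a s.2.2 c || srch rest ((s.1, c) :: a))

theorem srch_sound (φ : ℕ → ℕ) : ∀ (st : List Step) (a : List (ℕ × ℕ)), srch st a = true →
    (∀ p ∈ a, φ p.1 = p.2) → (∀ s ∈ st, φ s.1 ∈ s.2.1 ∧ ∀ u ∈ s.2.2, φ u ≠ φ s.1) → False := by
  intro st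
  induction st with
  | nil => intro a h; simp [srch] at h
  | cons s rest ih =>
    intro a h ha hs
    unfold srch at h
    rw [List.all_eq_true] at h
    have h1 := h (φ s.1) (hs s List.mem_cons_self).1
    rw [Bool.or_eq_true] at h1
    rcases h1 with h1 | h1
    · unfold hit at h1
      rw [List.any_eq_true] at h1
      obtain ⟨u, hu, h2⟩ := h1
      rw [List.any_eq_true] at h2
      obtain ⟨p, hp, h3⟩ := h2
      rw [Bool.and_eq_true] at h3
      have e1 : p.1 = u := Nat.eq_of_beq_eq_true h3.1
      have e2 : p.2 = φ s.1 := Nat.eq_of_beq_eq_true h3.2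
      exact (hs s List.mem_cons_self).2 u hu (by rw [← e1, ha p hp, e2])
    · refine ih _ h1 ?_ (fun s' hs' => hs s' (List.mem_cons_of_mem _ hs'))
      intro p hp
      rcases List.mem_cons.1 hp with hp | hp
      · rw [hp]
      · exact ha p hp

def listEq : List ℕ → List ℕ → Bool
  | [], [] => true
  | a :: s, b :: t => Nat.beq a b && listEq s t
  | _, _ => false

theorem listEq_eq : ∀ s t : List ℕ, listEq s t = true → s = t := by
  intro s
  induction s with
  | nil => intro t h; cases t with
    | nil => rfl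
    | cons b t => simp [listEq] at h
  | cons a s ih => intro t h; cases t with
    | nil => simp [listEq] at h
    | cons b t =>
      unfold listEq at h
      rw [Bool.and_eq_true] at h
      rw [Nat.eq_of_beq_eq_true h.1, ih t h.2]

def stepOk (n : ℕ) (up : List (List ℕ)) (Ls : List (List ℕ)) (s : Step) : Bool :=
  Nat.blt s.1 n && listEq (Ls.getD s.1 []) s.2.1 &&
    s.2.2.all (fun u => Nat.blt u n && adjB up u s.1)

/-- a colouring of the graph gives a function on `ℕ` -/
def extend {n : ℕ} (φ : Fin n → ℕ) (v : ℕ) : ℕ := if h : v < n then φ ⟨v, h⟩ else 0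

theorem extend_val {n : ℕ} (φ : Fin n → ℕ) (v : Fin n) : extend φ v.1 = φ v := by
  unfold extend; rw [dif_pos v.2]

theorem steps_ok {n : ℕ} {es : List Seg} {up : List (List ℕ)} {Ls : List (List ℕ)} (φ : Fin n → ℕ)
    (hup : upEq 0 up es = true) (hnd : es.all nondeg = true)
    (hL : ∀ v : Fin n, φ v ∈ Ls.getD v.1 []) (hφ : ∀ u v, (gr n es).Adj u v → φ u ≠ φ v)
    (st : List Step) (h : st.all (stepOk n up Ls) = true) :
    ∀ s ∈ st, extend φ s.1 ∈ s.2.1 ∧ ∀ u ∈ s.2.2, extend φ u ≠ extend φ s.1 := by
  intro s hs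
  rw [List.all_eq_true] at h
  have h1 := h s hs
  unfold stepOk at h1
  rw [Bool.and_eq_true, Bool.and_eq_true, List.all_eq_true] at h1
  obtain ⟨⟨h2, h3⟩, h4⟩ := h1
  rw [Nat.blt_eq] at h2
  have h5 := listEq_eq _ _ h3
  constructor
  · have := hL ⟨s.1, h2⟩
    simp only at this
    rw [h5] at this
    rw [show extend φ s.1 = φ ⟨s.1, h2⟩ from extend_val φ ⟨s.1, h2⟩]
    exact this
  · intro u hu
    have h6 := h4 u hu
    rw [Bool.and_eq_true, Nat.blt_eq] at h6
    obtain ⟨hun, h7⟩ := h6
    rw [show extend φ s.1 = φ ⟨s.1, h2⟩ from extend_val φ ⟨s.1, h2⟩,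
      show extend φ u = φ ⟨u, hun⟩ from extend_val φ ⟨u, hun⟩]
    exact hφ _ _ (adjB_adj hup hnd h7)

/-! ### consistency and covering -/

def consB (pts : List (ℕ × ℕ)) (e : Seg) : Bool :=
  Nat.beq e.a (pts.getD e.u (0, 0)).1 && Nat.beq e.b (pts.getD e.u (0, 0)).2 &&
  Nat.beq e.c (pts.getD e.v (0, 0)).1 && Nat.beq e.d (pts.getD e.v (0, 0)).2

theorem cons_of_consB {pts : List (ℕ × ℕ)} {es : List Seg} (h : es.all (consB pts) = true) :
    ∀ e ∈ es, e.cons (fun v => (pts.getD v (0, 0)).1) (fun v => (pts.getD v (0, 0)).2) := by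
  intro e he
  rw [List.all_eq_true] at h
  have h1 := h e he
  unfold consB at h1
  simp only [Bool.and_eq_true] at h1
  obtain ⟨⟨⟨a, b⟩, c⟩, d⟩ := h1
  exact ⟨Nat.eq_of_beq_eq_true a, Nat.eq_of_beq_eq_true b, Nat.eq_of_beq_eq_true c,
    Nat.eq_of_beq_eq_true d⟩

/-- `w` names a neighbour of each vertex -/
def covB (n : ℕ) (up : List (List ℕ)) : ℕ → List ℕ → Bool
  | i, [] => Nat.beq i n
  | i, w :: ws => Nat.blt w n && adjB up i w && covB n up (i + 1) ws

theorem covB_mem {n : ℕ} {up : List (List ℕ)} : ∀ (ws : List ℕ) (i : ℕ), covB n up i ws = true →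
    ∀ z, i ≤ z → z < n → ∃ w, w < n ∧ adjB up z w = true := by
  intro ws
  induction ws with
  | nil =>
    intro i h z h1 h2
    unfold covB at h
    have := Nat.eq_of_beq_eq_true h
    omega
  | cons w ws ih =>
    intro i h z h1 h2
    unfold covB at h
    rw [Bool.and_eq_true, Bool.and_eq_true, Nat.blt_eq] at h
    rcases Nat.lt_or_ge i z with h3 | h3
    · exact ih (i + 1) h.2 z (by omega) h2
    · have : i = z := by omega
      subst this
      exact ⟨w, h.1.1, h.1.2⟩

/-- the main planarity criterion -/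
theorem plane_of_checks {n : ℕ} {es : List Seg} (pts : List (ℕ × ℕ)) (up : List (List ℕ)) (ws : List ℕ)
    (hc : es.all (consB pts) = true) (hs : sortedFrom 0 es = true) (hp : sweep es = true)
    (hnd : es.all nondeg = true) (hup : upEq 0 up es = true) (hcov : covB n up 0 ws = true) :
    PlaneDrawable (gr n es) := by
  have hc' := cons_of_consB hc
  refine plane_of_rel hc' (sweep_rel es 0 hs hc' hp) hnd ?_
  intro z
  obtain ⟨w, hw, h1⟩ := covB_mem ws 0 hcov z.1 (Nat.zero_le _) z.2
  have h2 := adjB_adj (n := n) (es := es) (x := z) (y := ⟨w, hw⟩) hup hnd h1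
  obtain ⟨e, he, h3 | h3⟩ := gr_adj h2
  · exact ⟨e, he, Or.inl ⟨h3.1, by rw [h3.2]; exact hw⟩⟩
  · exact ⟨e, he, Or.inr ⟨h3.2, by rw [h3.1]; exact hw⟩⟩

/-! ### lists with a common colour 0 -/

/-- a strictly increasing list of four colours starting with 0 -/
def lstB : List ℕ → Bool
  | [a, b, c, d] => Nat.beq a 0 && Nat.blt a b && Nat.blt b c && Nat.blt c d
  | _ => false

theorem lstB_spec {l : List ℕ} (h : lstB l = true) : l.toFinset.card = 4 ∧ 0 ∈ l.toFinset := by
  match l, h with
  | [a, b, c, d], h =>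
    unfold lstB at h
    simp only [Bool.and_eq_true, Nat.blt_eq] at h
    obtain ⟨⟨⟨h1, h2⟩, h3⟩, h4⟩ := h
    have h1 := Nat.eq_of_beq_eq_true h1
    subst h1
    constructor
    · rw [List.toFinset_card_of_nodup]
      · rfl
      · simp only [List.nodup_cons, List.mem_cons, List.not_mem_nil, or_false, not_or]
        refine ⟨⟨?_, ?_, ?_⟩, ⟨?_, ?_⟩, ?_, ?_, ?_⟩ <;> first | omega | simp
    · simp

theorem one_three_assignment {n : ℕ} (Ls : List (List ℕ)) (hlen : Ls.length = n)
    (h : Ls.all lstB = true) :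
    LambdaAssignment [1, 3] (fun v : Fin n => (Ls.getD v.1 []).toFinset) := by
  have hs : ∀ v : Fin n, (Ls.getD v.1 []).toFinset.card = 4 ∧ 0 ∈ (Ls.getD v.1 []).toFinset := by
    intro v
    apply lstB_spec
    rw [List.all_eq_true] at h
    apply h
    have hlt : v.1 < Ls.length := by rw [hlen]; exact v.2
    rw [List.getD_eq_getElem _ _ hlt]
    exact List.getElem_mem hlt
  refine ⟨fun v => by simpa using (hs v).1, ![{0}, {c | c ≠ 0}], ?_, ?_, ?_⟩
  · intro i j hij
    fin_cases i <;> fin_cases j
    · exact absurd rfl hij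
    · simp
    · simp
    · exact absurd rfl hij
  · intro v c _
    by_cases hc : c = 0
    · exact ⟨0, by simpa using hc⟩
    · exact ⟨1, by simpa using hc⟩
  · intro v i
    obtain ⟨h4, h0⟩ := hs v
    fin_cases i
    · have : {c : ℕ | c ∈ (Ls.getD v.1 []).toFinset ∧ c ∈ (![{0}, {c | c ≠ 0}] : Fin 2 → Set ℕ) 0}
          = {0} := by
        ext c
        simp only [Matrix.cons_val_zero, Set.mem_setOf_eq, Set.mem_singleton_iff]
        constructor
        · exact fun h => h.2
        · intro h; subst h; exact ⟨h0, rfl⟩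
      exact (congrArg Set.ncard this).trans (Set.ncard_singleton 0)
    · have : {c : ℕ | c ∈ (Ls.getD v.1 []).toFinset ∧ c ∈ (![{0}, {c | c ≠ 0}] : Fin 2 → Set ℕ) 1}
          = ((Ls.getD v.1 []).toFinset.erase 0 : Finset ℕ) := by
        ext c
        simp only [Matrix.cons_val_one, Set.mem_setOf_eq, Finset.coe_erase, Set.mem_diff,
          Finset.mem_coe, Set.mem_singleton_iff]
        rfl
      refine (congrArg Set.ncard this).trans ?_
      rw [Set.ncard_coe_finset, Finset.card_erase_of_mem h0, h4]
      rfl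

end Helper183
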