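import Mathlib

/-!
Rotation systems on finite simple graphs, and a certified search through all rotation systems of a
cubic graph (strands are joined one after the other; the number of faces is at most the number of
joins that close a strand).
-/

set_option autoImplicit false
set_option linter.unusedVariables false

namespace Helper183.MG

open Equiv Equiv.Perm

/-! ### Rotation systems -/

/-- A rotation system on `G`: a permutation of the darts (the edges with a direction) that keeps the
start of each dart and permutes the darts that start at a common vertex cyclically. -/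
structure RotationSystem {V : Type} (G : SimpleGraph V) where
  rot : Equiv.Perm G.Dart
  fst_rot : ∀ d, (rot d).fst = d.fst
  cyclic : ∀ d d' : G.Dart, d.fst = d'.fst → rot.SameCycle d d'

/-- The reversal of darts. -/
def dartRev {V : Type} (G : SimpleGraph V) : Equiv.Perm G.Dart where
  toFun d := d.symm
  invFun d := d.symm
  left_inv d := d.symm_symm
  right_inv d := d.symm_symm

/-- The face permutation: walk along the dart `d`, then take the dart that follows the reverse of `d`
in the rotation at the end of `d`.  Its cycles are the perimeters of the regions. -/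
def RotationSystem.face {V : Type} {G : SimpleGraph V} (R : RotationSystem G) : Equiv.Perm G.Dart :=
  R.rot * dartRev G

/-- The number of regions. -/
noncomputable def RotationSystem.faceCount {V : Type} {G : SimpleGraph V} (R : RotationSystem G) : ℕ :=
  Nat.card (Quotient (SameCycle.setoid R.face))

/-- The embedding given by `R` is an embedding in the orientable surface of genus `g`
(Euler's formula, for connected `G`). -/
def RotationSystem.HasGenus {V : Type} {G : SimpleGraph V} (R : RotationSystem G) (g : ℕ) : Prop :=
  (Nat.card V : ℤ) - (Nat.card G.edgeSet : ℤ) + (R.faceCount : ℤ) = 2 - 2 * (g : ℤ)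

/-- The (orientable) genus of a connected graph. -/
noncomputable def genus {V : Type} (G : SimpleGraph V) : ℕ :=
  sInf {g : ℕ | ∃ R : RotationSystem G, R.HasGenus g}

/-! ### Packed arrays -/

def get (P i : ℕ) : ℕ := Nat.land (Nat.shiftRight P (Nat.mul 6 i)) 63

def upd (P i v : ℕ) : ℕ := Nat.xor P (Nat.shiftLeft v (Nat.mul 6 i))

theorem get_testBit (P i k : ℕ) : (get P i).testBit k = (P.testBit (6 * i + k) && decide (k < 6)) := by
  have h63 : (63 : ℕ) = 2 ^ 6 - 1 := by norm_num
  show ((P >>> (6 * i)) &&& 63).testBit k = _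
  rw [Nat.testBit_and, Nat.testBit_shiftRight, h63, Nat.testBit_two_pow_sub_one]

theorem upd_testBit (P i v k : ℕ) :
    (upd P i v).testBit k = ((P.testBit k) ^^ (decide (6 * i ≤ k) && v.testBit (k - 6 * i))) := by
  show (P ^^^ (v <<< (6 * i))).testBit k = _
  rw [Nat.testBit_xor, Nat.testBit_shiftLeft]

theorem get_upd_same (P i v : ℕ) (hv : v < 64) : get (upd P i v) i = (get P i) ^^^ v := by
  apply Nat.eq_of_testBit_eq
  intro k
  rw [get_testBit, upd_testBit, Nat.testBit_xor, get_testBit]
  have h1 : 6 * i ≤ 6 * i + k := Nat.le_add_right _ _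
  have h2 : 6 * i + k - 6 * i = k := by omega
  rw [h2]
  by_cases hk : k < 6
  · simp [hk]
  · have : v.testBit k = false := by
      apply Nat.testBit_lt_two_pow
      calc v < 2 ^ 6 := by norm_num; exact hv
        _ ≤ 2 ^ k := Nat.pow_le_pow_right (by norm_num) (by omega)
    simp [hk, this]

theorem get_upd_ne (P i j v : ℕ) (hv : v < 64) (hij : j ≠ i) : get (upd P i v) j = get P j := by
  apply Nat.eq_of_testBit_eq
  intro k
  rw [get_testBit, upd_testBit, get_testBit]
  by_cases hk : k < 6
  · have : (decide (6 * i ≤ 6 * j + k) && v.testBit (6 * j + k - 6 * i)) = false := by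
      by_cases h : 6 * i ≤ 6 * j + k
      · have h3 : v.testBit (6 * j + k - 6 * i) = false := by
          apply Nat.testBit_lt_two_pow
          calc v < 2 ^ 6 := by norm_num; exact hv
            _ ≤ 2 ^ (6 * j + k - 6 * i) := Nat.pow_le_pow_right (by norm_num) (by omega)
        simp [h3]
      · simp [h]
    rw [this]
    simp
  · simp [hk]

theorem xor_lt {a b : ℕ} (ha : a < 64) (hb : b < 64) : Nat.xor a b < 64 := by
  have := Nat.xor_lt_two_pow (n := 6) (x := a) (y := b) (by simpa using ha) (by simpa using hb)
  simpa using this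

/-! ### The invariant of the strand algorithm -/

section strand

variable {α : Type} [Finite α] (φ : Equiv.Perm α) (code : α → ℕ)

/-- the set of cycles of `φ` all of whose elements lie in `J` -/
def closedCycles (J : Set α) : Set (Quotient (SameCycle.setoid φ)) :=
  {q | ∀ x, Quotient.mk (SameCycle.setoid φ) x = q → x ∈ J}

structure Inv (J : Set α) (P Q c : ℕ) : Prop where
  A : ∀ e, e ∉ J → ∃ s, code s = get P (code e) ∧ get Q (code s) = code e ∧ φ.SameCycle s e ∧
    φ.symm s ∉ J
  D : ∀ a, φ.symm a ∉ J → ∃ e, e ∉ J ∧ code e = get Q (code a) ∧ get P (code e) = code a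
  C : (closedCycles φ J).ncard ≤ c

variable {φ code}

theorem Inv.close (hc : Function.Injective code) {J : Set α} {P Q c : ℕ} (h : Inv φ code J P Q c)
    (e : α) (he : e ∉ J) (hclose : get P (code e) = code (φ e)) :
    Inv φ code (insert e J) P Q (c + 1) := by
  refine ⟨?_, ?_, ?_⟩
  · intro x hx
    rw [Set.mem_insert_iff, not_or] at hx
    obtain ⟨s, h1, h2, h3, h4⟩ := h.A x hx.2
    refine ⟨s, h1, h2, h3, ?_⟩
    rw [Set.mem_insert_iff, not_or]
    refine ⟨?_, h4⟩
    intro h5
    have hs : s = φ e := by rw [← h5]; simp
    -- s = φ e, get Q (code s) = code x ; but also get Q (code (φ e)) = code e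
    obtain ⟨s', g1, g2, g3, g4⟩ := h.A e he
    have : s' = φ e := hc (by rw [g1, hclose])
    rw [this, ← hs, h2] at g2
    exact hx.1 (hc g2)
  · intro a ha
    rw [Set.mem_insert_iff, not_or] at ha
    obtain ⟨x, h1, h2, h3⟩ := h.D a ha.2
    refine ⟨x, ?_, h2, h3⟩
    rw [Set.mem_insert_iff, not_or]
    refine ⟨?_, h1⟩
    intro h5
    apply ha.1
    rw [h5, hclose] at h3
    rw [← hc h3]
    simp
  · have hsub : closedCycles φ (insert e J) ⊆
        insert (Quotient.mk (SameCycle.setoid φ) e) (closedCycles φ J) := by
      intro q hq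
      by_cases hqe : q = Quotient.mk (SameCycle.setoid φ) e
      · left; exact hqe
      · right
        intro x hx
        have := hq x hx
        rw [Set.mem_insert_iff] at this
        rcases this with h1 | h1
        · exfalso; apply hqe; rw [← hx, h1]
        · exact h1
    calc (closedCycles φ (insert e J)).ncard
        ≤ (insert (Quotient.mk (SameCycle.setoid φ) e) (closedCycles φ J)).ncard :=
          Set.ncard_le_ncard hsub (Set.toFinite _)
      _ ≤ (closedCycles φ J).ncard + 1 := Set.ncard_insert_le _ _
      _ ≤ c + 1 := by have := h.C; omega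

theorem Inv.join (hc : Function.Injective code) (hlt : ∀ x, code x < 64)
    {J : Set α} {P Q c : ℕ} (h : Inv φ code J P Q c)
    (e : α) (he : e ∉ J) (hclose : get P (code e) ≠ code (φ e)) :
    Inv φ code (insert e J)
      (upd P (get Q (code (φ e))) (Nat.xor (code (φ e)) (get P (code e))))
      (upd Q (get P (code e)) (Nat.xor (code e) (get Q (code (φ e))))) c := by
  -- the strand that ends at `e` starts at `s`
  obtain ⟨s, s1, s2, s3, s4⟩ := h.A e he
  -- the strand that starts at `φ e` ends at `e'`
  obtain ⟨e', t1, t2, t3⟩ := h.D (φ e) (by simpa using he)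
  have hsne : s ≠ φ e := by
    intro h1; apply hclose; rw [← s1, h1]
  have hee' : e' ≠ e := by
    intro h1; apply hclose; rw [← h1, t3, h1]
  -- the start of the strand that ends at `e'` is `φ e`
  obtain ⟨u, u1, u2, u3, u4⟩ := h.A e' t1
  have hu : u = φ e := hc (by rw [u1, t3])
  have hsame : φ.SameCycle s e' := by
    have h1 : φ.SameCycle s e := s3
    have h2 : φ.SameCycle e (φ e) := ⟨1, by simp⟩
    rw [hu] at u3
    exact h1.trans (h2.trans u3)
  have hx1 : Nat.xor (code (φ e)) (code s) < 64 := xor_lt (hlt _) (hlt _)
  have hx2 : Nat.xor (code e) (code e') < 64 := xor_lt (hlt _) (hlt _)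
  rw [← s1, ← t2]
  have gP : get (upd P (code e') (Nat.xor (code (φ e)) (code s))) (code e') = code s := by
    rw [get_upd_same _ _ _ hx1, t3]
    show code (φ e) ^^^ (code (φ e) ^^^ code s) = code s
    rw [← Nat.xor_assoc, Nat.xor_self, Nat.zero_xor]
  have gQ : get (upd Q (code s) (Nat.xor (code e) (code e'))) (code s) = code e' := by
    rw [get_upd_same _ _ _ hx2, s2]
    show code e ^^^ (code e ^^^ code e') = code e'
    rw [← Nat.xor_assoc, Nat.xor_self, Nat.zero_xor]
  refine ⟨?_, ?_, ?_⟩
  · intro x hx
    rw [Set.mem_insert_iff, not_or] at hx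
    by_cases hxe : x = e'
    · subst hxe
      refine ⟨s, ?_, ?_, hsame, ?_⟩
      · rw [gP]
      · rw [gQ]
      · rw [Set.mem_insert_iff, not_or]
        refine ⟨?_, s4⟩
        intro h5
        apply hsne
        rw [← h5]; simp
    · obtain ⟨w, w1, w2, w3, w4⟩ := h.A x hx.2
      have hcx : code x ≠ code e' := fun h5 => hxe (hc h5)
      have hws : w ≠ s := by
        intro h5; rw [h5, s2] at w2; exact hx.1 (hc w2.symm)
      have hcw : code w ≠ code s := fun h5 => hws (hc h5)
      refine ⟨w, ?_, ?_, w3, ?_⟩
      · rw [get_upd_ne _ _ _ _ hx1 hcx, w1]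
      · rw [get_upd_ne _ _ _ _ hx2 hcw, w2]
      · rw [Set.mem_insert_iff, not_or]
        refine ⟨?_, w4⟩
        intro h5
        have hw : w = φ e := by rw [← h5]; simp
        rw [hw, ← t2] at w2
        exact hxe (hc w2.symm)
  · intro a ha
    rw [Set.mem_insert_iff, not_or] at ha
    have hae : a ≠ φ e := by
      intro h5; apply ha.1; rw [h5]; simp
    by_cases has : a = s
    · refine ⟨e', ?_, ?_, ?_⟩
      · rw [Set.mem_insert_iff, not_or]; exact ⟨hee', t1⟩
      · rw [has, gQ]
      · rw [has, gP]
    · obtain ⟨x, x1, x2, x3⟩ := h.D a ha.2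
      have hca : code a ≠ code s := fun h5 => has (hc h5)
      have hxe : x ≠ e := by
        intro h5; rw [h5, ← s1] at x3; exact has (hc x3.symm)
      have hxe' : x ≠ e' := by
        intro h5; rw [h5, t3] at x3; exact hae (hc x3.symm)
      have hcx : code x ≠ code e' := fun h5 => hxe' (hc h5)
      refine ⟨x, ?_, ?_, ?_⟩
      · rw [Set.mem_insert_iff, not_or]; exact ⟨hxe, x1⟩
      · rw [get_upd_ne _ _ _ _ hx2 hca, x2]
      · rw [get_upd_ne _ _ _ _ hx1 hcx, x3]
  · have hsub : closedCycles φ (insert e J) ⊆ closedCycles φ J := by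
      intro q hq x hx
      have h1 := hq x hx
      rw [Set.mem_insert_iff] at h1
      rcases h1 with h1 | h1
      · exfalso
        have h2 := hq (φ.symm s) (by
          rw [← hx, h1]
          apply Quotient.sound
          show φ.SameCycle (φ.symm s) e
          have : φ.SameCycle (φ.symm s) s := by
            have h6 : φ.SameCycle (φ.symm s) (φ (φ.symm s)) := ⟨1, by simp⟩
            simpa using h6
          exact this.trans s3)
        rw [Set.mem_insert_iff] at h2
        rcases h2 with h2 | h2
        · apply hsne; rw [← h2]; simp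
        · exact s4 h2
      · exact h1
    exact le_trans (Set.ncard_le_ncard hsub (Set.toFinite _)) h.C

theorem card_le_of_inv {J : Set α} {P Q c m : ℕ} (h : Inv φ code J P Q c) (hJ : (Jᶜ).ncard ≤ m) :
    Nat.card (Quotient (SameCycle.setoid φ)) ≤ c + m := by
  have h1 : (Set.univ : Set (Quotient (SameCycle.setoid φ))) ⊆
      closedCycles φ J ∪ (Quotient.mk (SameCycle.setoid φ)) '' Jᶜ := by
    intro q _
    by_cases hq : q ∈ closedCycles φ J
    · left; exact hq
    · right
      unfold closedCycles at hq
      simp only [Set.mem_setOf_eq, not_forall] at hq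
      obtain ⟨x, hx, hxJ⟩ := hq
      exact ⟨x, hxJ, hx⟩
  rw [← Set.ncard_univ]
  calc (Set.univ : Set (Quotient (SameCycle.setoid φ))).ncard
      ≤ (closedCycles φ J ∪ (Quotient.mk (SameCycle.setoid φ)) '' Jᶜ).ncard :=
        Set.ncard_le_ncard h1 (Set.toFinite _)
    _ ≤ (closedCycles φ J).ncard + ((Quotient.mk (SameCycle.setoid φ)) '' Jᶜ).ncard :=
        Set.ncard_union_le _ _
    _ ≤ c + m := by
        have h2 := h.C
        have h3 : ((Quotient.mk (SameCycle.setoid φ)) '' Jᶜ).ncard ≤ (Jᶜ).ncard :=
          Set.ncard_image_le (Set.toFinite _)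
        omega

end strand


/-! ### The search -/

/-- process a list of joins (pairs: code of a dart `x`, code of `φ x`) -/
def runJ (k : ℕ → ℕ → ℕ → Bool) : List (ℕ × ℕ) → ℕ → ℕ → ℕ → Bool
  | [], P, Q, c => k P Q c
  | p :: l, P, Q, c =>
    cond (Nat.beq (get P p.1) p.2) (runJ k l P Q (Nat.succ c))
      (runJ k l (upd P (get Q p.2) (Nat.xor p.2 (get P p.1)))
        (upd Q (get P p.1) (Nat.xor p.1 (get Q p.2))) c)

/-- look up the successor of the dart `x` in a list of joins -/
def look : List (ℕ × ℕ) → ℕ → ℕ
  | [], _ => 0
  | p :: l, x => cond (Nat.beq p.1 x) p.2 (look l x)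

/-- does the walk from `x` along the joins reach `y`? -/
def hits (acc : List (ℕ × ℕ)) (y : ℕ) : ℕ → ℕ → Bool
  | 0, _ => false
  | f + 1, x => cond (Nat.beq x y) true (hits acc y f (look acc x))

/-- some dart of the list (given with its reverse) lies in the same face as its reverse -/
def nonCirc (acc : List (ℕ × ℕ)) : List (ℕ × ℕ) → Bool
  | [] => false
  | p :: l => cond (hits acc p.2 64 p.1) true (nonCirc acc l)

/-- the record of a vertex: codes of the reverses of the three darts leaving it, and the codes of these
three darts -/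
structure VRec where
  e0 : ℕ
  e1 : ℕ
  e2 : ℕ
  a0 : ℕ
  a1 : ℕ
  a2 : ℕ
deriving DecidableEq

def VRec.j0 (r : VRec) : List (ℕ × ℕ) := [(r.e0, r.a1), (r.e1, r.a2), (r.e2, r.a0)]
def VRec.j1 (r : VRec) : List (ℕ × ℕ) := [(r.e0, r.a2), (r.e1, r.a0), (r.e2, r.a1)]
def VRec.es (r : VRec) : List ℕ := [r.e0, r.e1, r.e2]
def VRec.prs (r : VRec) : List (ℕ × ℕ) := [(r.a0, r.e0), (r.a1, r.e1), (r.a2, r.e2)]

def srch (t : ℕ) (pr : List (ℕ × ℕ)) : List VRec → List (ℕ × ℕ) → ℕ → ℕ → ℕ → Bool
  | [], acc, _, _, c => cond (Nat.blt c t) true (cond (Nat.beq c t) (nonCirc acc pr) false)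
  | r :: l, acc, P, Q, c =>
    cond (Nat.blt (Nat.add c (Nat.mul 3 (Nat.succ l.length))) t) true
      (cond (runJ (srch t pr l (r.j0 ++ acc)) r.j0 P Q c)
        (runJ (srch t pr l (r.j1 ++ acc)) r.j1 P Q c) false)

section sound

variable {α : Type} [Finite α] {φ : Equiv.Perm α} {code : α → ℕ}

/-- the joins of the list are joins of `φ` -/
def Valid (φ : Equiv.Perm α) (code : α → ℕ) (j : List (ℕ × ℕ)) : Prop :=
  ∀ p ∈ j, ∃ x, code x = p.1 ∧ code (φ x) = p.2

theorem hits_sound (hc : Function.Injective code) {acc : List (ℕ × ℕ)} (hv : Valid φ code acc)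
    (hall : ∀ x, ∃ p ∈ acc, p.1 = code x) (y : α) :
    ∀ (f : ℕ) (x : α), hits acc (code y) f (code x) = true → φ.SameCycle x y := by
  have hlook : ∀ (l : List (ℕ × ℕ)), Valid φ code l → ∀ x : α, (∃ p ∈ l, p.1 = code x) →
      look l (code x) = code (φ x) := by
    intro l
    induction l with
    | nil => intro _ x ⟨p, hp, _⟩; simp at hp
    | cons p l ih =>
      intro hv x hx
      unfold look
      by_cases hpx : p.1 = code x
      · rw [hpx]
        simp only [Nat.beq_refl, cond_true]
        obtain ⟨z, z1, z2⟩ := hv p (by simp)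
        have : z = x := hc (by rw [z1, hpx])
        rw [← z2, this]
      · have hb : Nat.beq p.1 (code x) = false := by
          cases h : Nat.beq p.1 (code x)
          · rfl
          · exact absurd (Nat.eq_of_beq_eq_true h) hpx
        rw [hb, cond_false]
        apply ih (fun q hq => hv q (by simp [hq]))
        obtain ⟨q, hq, hq'⟩ := hx
        rcases List.mem_cons.1 hq with h | h
        · exfalso; apply hpx; rw [← h]; exact hq'
        · exact ⟨q, h, hq'⟩
  intro f
  induction f with
  | zero => intro x h; simp [hits] at h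
  | succ f ih =>
    intro x h
    unfold hits at h
    by_cases hxy : x = y
    · rw [hxy]
    · have hb : Nat.beq (code x) (code y) = false := by
        cases h' : Nat.beq (code x) (code y)
        · rfl
        · exact absurd (hc (Nat.eq_of_beq_eq_true h')) hxy
      rw [hb, cond_false, hlook acc hv x (hall x)] at h
      have h2 := ih (φ x) h
      have h3 : φ.SameCycle x (φ x) := ⟨1, by simp⟩
      exact h3.trans h2

theorem nonCirc_sound (hc : Function.Injective code) {acc : List (ℕ × ℕ)} (hv : Valid φ code acc)
    (hall : ∀ x, ∃ p ∈ acc, p.1 = code x) (rev : α → α) :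
    ∀ pr : List (ℕ × ℕ), (∀ p ∈ pr, ∃ x, code x = p.1 ∧ code (rev x) = p.2) →
      nonCirc acc pr = true → ∃ x, φ.SameCycle x (rev x) := by
  intro pr
  induction pr with
  | nil => intro _ h; simp [nonCirc] at h
  | cons p l ih =>
    intro hp h
    unfold nonCirc at h
    cases hh : hits acc p.2 64 p.1
    · rw [hh, cond_false] at h
      exact ih (fun q hq => hp q (by simp [hq])) h
    · obtain ⟨x, x1, x2⟩ := hp p (by simp)
      rw [← x1, ← x2] at hh
      exact ⟨x, hits_sound hc hv hall _ _ _ hh⟩

theorem runJ_sound (hc : Function.Injective code) (hlt : ∀ x, code x < 64)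
    (k : ℕ → ℕ → ℕ → Bool) :
    ∀ (j : List (ℕ × ℕ)) (J : Set α) (P Q c : ℕ), Valid φ code j → Inv φ code J P Q c →
      (j.map Prod.fst).Nodup → (∀ p ∈ j, ∀ x, code x = p.1 → x ∉ J) →
      runJ k j P Q c = true →
      ∃ P' Q' c', Inv φ code (J ∪ {x | code x ∈ j.map Prod.fst}) P' Q' c' ∧ k P' Q' c' = true := by
  intro j
  induction j with
  | nil =>
    intro J P Q c _ hI _ _ h
    exact ⟨P, Q, c, by simpa using hI, h⟩
  | cons p l ih =>
    intro J P Q c hv hI hnd hJ h
    obtain ⟨e, e1, e2⟩ := hv p (by simp)
    have heJ : e ∉ J := hJ p (by simp) e e1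
    rw [List.map_cons, List.nodup_cons] at hnd
    have hset : insert e J ∪ {x | code x ∈ l.map Prod.fst} =
        J ∪ {x | code x ∈ (p :: l).map Prod.fst} := by
      ext x
      simp only [Set.mem_union, Set.mem_insert_iff, Set.mem_setOf_eq, List.map_cons,
        List.mem_cons]
      have : x = e ↔ code x = p.1 := ⟨fun h => by rw [h, e1], fun h => hc (by rw [h, e1])⟩
      rw [this]; tauto
    have hJ' : ∀ q ∈ l, ∀ x, code x = q.1 → x ∉ insert e J := by
      intro q hq x hx
      rw [Set.mem_insert_iff, not_or]
      refine ⟨?_, hJ q (by simp [hq]) x hx⟩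
      intro h5
      apply hnd.1
      rw [← e1, ← h5, hx]
      exact List.mem_map_of_mem hq
    unfold runJ at h
    rw [← hset]
    by_cases hcl : get P p.1 = p.2
    · have hb : Nat.beq (get P p.1) p.2 = true := by rw [hcl]; exact Nat.beq_refl _
      rw [hb, cond_true] at h
      apply ih (insert e J) P Q (c + 1) (fun q hq => hv q (by simp [hq])) _ hnd.2 hJ' h
      exact hI.close hc e heJ (by rw [e1, e2, hcl])
    · have hb : Nat.beq (get P p.1) p.2 = false := by
        cases h' : Nat.beq (get P p.1) p.2
        · rfl
        · exact absurd (Nat.eq_of_beq_eq_true h') hcl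
      rw [hb, cond_false] at h
      apply ih (insert e J) _ _ c (fun q hq => hv q (by simp [hq])) _ hnd.2 hJ' h
      have := hI.join hc hlt e heJ (by rw [e1, e2]; exact hcl)
      rw [e1, e2] at this
      exact this

theorem srch_sound (hc : Function.Injective code) (hlt : ∀ x, code x < 64) (t : ℕ)
    (rev : α → α) (pr : List (ℕ × ℕ)) (hpr : ∀ p ∈ pr, ∃ x, code x = p.1 ∧ code (rev x) = p.2) :
    ∀ (l : List VRec) (acc : List (ℕ × ℕ)) (J : Set α) (P Q c : ℕ),
      (∀ r ∈ l, Valid φ code r.j0 ∨ Valid φ code r.j1) → Valid φ code acc →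
      Inv φ code J P Q c → (l.flatMap VRec.es).Nodup →
      (∀ m ∈ l.flatMap VRec.es, ∀ x, code x = m → x ∉ J) →
      (∀ x, x ∈ J ∨ code x ∈ l.flatMap VRec.es) → (∀ x ∈ J, ∃ p ∈ acc, p.1 = code x) →
      srch t pr l acc P Q c = true →
      Nat.card (Quotient (SameCycle.setoid φ)) < t ∨
        (Nat.card (Quotient (SameCycle.setoid φ)) ≤ t ∧ ∃ x, φ.SameCycle x (rev x)) := by
  intro l
  induction l with
  | nil =>
    intro acc J P Q c _ hacc hI _ _ hall hJacc h
    have hJ : Jᶜ.ncard ≤ 0 := by
      have : Jᶜ = ∅ := by
        ext x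
        simp only [Set.mem_compl_iff, Set.mem_empty_iff_false, iff_false, not_not]
        rcases hall x with h1 | h1
        · exact h1
        · simp at h1
      rw [this]; simp
    have hle := card_le_of_inv hI hJ
    unfold srch at h
    by_cases hct : c < t
    · left; omega
    · have hb : Nat.blt c t = false := by
        cases h' : Nat.blt c t
        · rfl
        · exact absurd (by simpa [Nat.blt_eq] using h') hct
      rw [hb, cond_false] at h
      cases hb2 : Nat.beq c t
      · rw [hb2, cond_false] at h; exact absurd h (by simp)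
      · rw [hb2, cond_true] at h
        have hct' : c = t := Nat.eq_of_beq_eq_true hb2
        right
        refine ⟨by omega, ?_⟩
        apply nonCirc_sound hc hacc _ rev pr hpr h
        intro x
        rcases hall x with h1 | h1
        · exact hJacc x h1
        · simp at h1
  | cons r l ih =>
    intro acc J P Q c hv hacc hI hnd hdis hall hJacc h
    unfold srch at h
    by_cases hct : c + 3 * (l.length + 1) < t
    · left
      have hJ : Jᶜ.ncard ≤ 3 * (l.length + 1) := by
        have hlen : ∀ l' : List VRec, (l'.flatMap VRec.es).length = 3 * l'.length := by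
          intro l'
          induction l' with
          | nil => simp
          | cons a b ih => rw [List.flatMap_cons, List.length_append, ih]; simp [VRec.es]; ring
        have h1 : code '' Jᶜ ⊆ ((((r :: l).flatMap VRec.es).toFinset : Finset ℕ) : Set ℕ) := by
          rintro _ ⟨x, hx, rfl⟩
          rcases hall x with h2 | h2
          · exact absurd h2 hx
          · rw [Finset.mem_coe, List.mem_toFinset]; exact h2
        calc Jᶜ.ncard = (code '' Jᶜ).ncard := (Set.ncard_image_of_injective _ hc).symm
          _ ≤ ((((r :: l).flatMap VRec.es).toFinset : Finset ℕ) : Set ℕ).ncard :=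
              Set.ncard_le_ncard h1 (Finset.finite_toSet _)
          _ = (((r :: l).flatMap VRec.es).toFinset).card := Set.ncard_coe_finset _
          _ ≤ ((r :: l).flatMap VRec.es).length := List.toFinset_card_le _
          _ = 3 * (l.length + 1) := by rw [hlen]; simp
      have hle := card_le_of_inv hI hJ
      omega
    · have hb : Nat.blt (Nat.add c (Nat.mul 3 (Nat.succ l.length))) t = false := by
        cases h' : Nat.blt (Nat.add c (Nat.mul 3 (Nat.succ l.length))) t
        · rfl
        · exfalso
          apply hct
          rw [Nat.blt_eq] at h'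
          exact h'
      rw [hb, cond_false] at h
      have key : ∀ j : List (ℕ × ℕ), j.map Prod.fst = r.es → Valid φ code j →
          runJ (srch t pr l (j ++ acc)) j P Q c = true →
          Nat.card (Quotient (SameCycle.setoid φ)) < t ∨
            (Nat.card (Quotient (SameCycle.setoid φ)) ≤ t ∧ ∃ x, φ.SameCycle x (rev x)) := by
        intro j hj hvj hrun
        rw [List.flatMap_cons] at hnd
        have hnd' := List.nodup_append'.1 hnd
        have hdis' : ∀ p ∈ j, ∀ x, code x = p.1 → x ∉ J := by
          intro p hp x hx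
          apply hdis p.1 _ x hx
          rw [List.flatMap_cons, List.mem_append]
          left
          rw [← hj]
          exact List.mem_map_of_mem hp
        obtain ⟨P', Q', c', hI', hk'⟩ := runJ_sound hc hlt _ j J P Q c hvj hI
          (by rw [hj]; exact hnd'.1) hdis' hrun
        rw [hj] at hI'
        refine ih (j ++ acc) _ P' Q' c' (fun r' hr' => hv r' (by simp [hr'])) ?_ hI' hnd'.2.1 ?_ ?_
          ?_ hk'
        · intro p hp
          rcases List.mem_append.1 hp with h1 | h1
          · exact hvj p h1
          · exact hacc p h1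
        · intro m hm x hx hxJ
          rcases hxJ with h1 | h1
          · exact hdis m (by rw [List.flatMap_cons, List.mem_append]; right; exact hm) x hx h1
          · have h2 : code x ∈ r.es := h1
            rw [hx] at h2
            exact hnd'.2.2 h2 hm
        · intro x
          rcases hall x with h1 | h1
          · left; left; exact h1
          · rw [List.flatMap_cons, List.mem_append] at h1
            rcases h1 with h1 | h1
            · left; right; exact h1
            · right; exact h1
        · intro x hx
          rcases hx with h1 | h1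
          · obtain ⟨p, hp, hp'⟩ := hJacc x h1
            exact ⟨p, List.mem_append_right _ hp, hp'⟩
          · have h2 : code x ∈ r.es := h1
            rw [← hj, List.mem_map] at h2
            obtain ⟨p, hp, hp'⟩ := h2
            exact ⟨p, List.mem_append_left _ hp, hp'⟩
      cases h0 : runJ (srch t pr l (r.j0 ++ acc)) r.j0 P Q c
      · rw [h0, cond_false] at h; exact absurd h (by simp)
      · rw [h0, cond_true] at h
        rcases hv r (by simp) with h1 | h1
        · exact key r.j0 rfl h1 h0
        · exact key r.j1 rfl h1 h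

end sound

end Helper183.MG
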