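import Mathlib
import Pool.Agent.W183.MinGenus

/-!
Cubic graphs given by tables, and the connection between their rotation systems and the certified
search of `Pool.Agent.W183.MinGenus`.
-/

set_option autoImplicit false

namespace Helper183.MG

open Equiv Equiv.Perm

/-- a cubic graph given by its table of neighbours; `bk v i` is the index of `v` in the list of its
`i`-th neighbour -/
structure Tbl (n : ℕ) where
  nb : Fin n → Fin 3 → Fin n
  bk : Fin n → Fin 3 → Fin 3
  inj : ∀ v i j, nb v i = nb v j → i = j
  ne : ∀ v i, nb v i ≠ v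
  rev : ∀ v i, nb (nb v i) (bk v i) = v

namespace Tbl

variable {n : ℕ} (T : Tbl n)

/-- the graph of the table -/
def graph : SimpleGraph (Fin n) where
  Adj a b := ∃ i, T.nb a i = b
  symm := by
    constructor
    rintro a b ⟨i, rfl⟩
    exact ⟨T.bk a i, T.rev a i⟩
  loopless := by
    constructor
    rintro a ⟨i, hi⟩
    exact T.ne a i hi

instance : DecidableRel T.graph.Adj := fun a b => inferInstanceAs (Decidable (∃ i, T.nb a i = b))

/-- the `i`-th dart that starts at `v` -/
def dart (v : Fin n) (i : Fin 3) : T.graph.Dart := ⟨(v, T.nb v i), ⟨i, rfl⟩⟩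

theorem dart_fst (v : Fin n) (i : Fin 3) : (T.dart v i).fst = v := rfl

theorem exists_dart (d : T.graph.Dart) : ∃ v i, d = T.dart v i := by
  obtain ⟨i, hi⟩ := d.adj
  refine ⟨d.fst, i, ?_⟩
  apply SimpleGraph.Dart.ext
  apply Prod.ext
  · rfl
  · exact hi.symm

theorem dart_inj {v w : Fin n} {i j : Fin 3} (h : T.dart v i = T.dart w j) : v = w ∧ i = j := by
  have h1 : v = w := congrArg (fun d => d.fst) h
  subst h1
  have h2 : T.nb v i = T.nb v j := congrArg (fun d => d.snd) h
  exact ⟨rfl, T.inj v i j h2⟩

theorem dart_symm (v : Fin n) (i : Fin 3) : (T.dart v i).symm = T.dart (T.nb v i) (T.bk v i) := by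
  apply SimpleGraph.Dart.ext
  apply Prod.ext
  · rfl
  · exact (T.rev v i).symm

/-- the code of a dart -/
noncomputable def code (d : T.graph.Dart) : ℕ := 3 * (d.fst : ℕ) + ((Classical.choose d.adj : Fin 3) : ℕ)

theorem code_dart (v : Fin n) (i : Fin 3) : T.code (T.dart v i) = 3 * (v : ℕ) + (i : ℕ) := by
  unfold code
  have h := Classical.choose_spec (T.dart v i).adj
  have h2 : Classical.choose (T.dart v i).adj = i := T.inj v _ _ h
  rw [h2]
  rfl

theorem code_inj : Function.Injective T.code := by
  intro d d' h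
  obtain ⟨v, i, rfl⟩ := T.exists_dart d
  obtain ⟨w, j, rfl⟩ := T.exists_dart d'
  rw [code_dart, code_dart] at h
  have hi := i.isLt
  have hj := j.isLt
  have h1 : (v : ℕ) = w := by omega
  have h2 : (i : ℕ) = j := by omega
  have h1' : v = w := Fin.ext h1
  have h2' : i = j := Fin.ext h2
  rw [h1', h2']

theorem code_lt (d : T.graph.Dart) : T.code d < 3 * n := by
  obtain ⟨v, i, rfl⟩ := T.exists_dart d
  rw [code_dart]
  have := v.isLt
  have := i.isLt
  omega

/-- the record of the vertex `v` -/
def vrec (v : Fin n) : VRec where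
  e0 := 3 * (T.nb v 0 : ℕ) + (T.bk v 0 : ℕ)
  e1 := 3 * (T.nb v 1 : ℕ) + (T.bk v 1 : ℕ)
  e2 := 3 * (T.nb v 2 : ℕ) + (T.bk v 2 : ℕ)
  a0 := 3 * (v : ℕ)
  a1 := 3 * (v : ℕ) + 1
  a2 := 3 * (v : ℕ) + 2

/-- all records -/
def recs : List VRec := List.ofFn T.vrec

theorem rot_cases (R : RotationSystem T.graph) (v : Fin n) :
    (∀ i, R.rot (T.dart v i) = T.dart v (i + 1)) ∨ (∀ i, R.rot (T.dart v i) = T.dart v (i + 2)) := by
  have h1 : ∀ i, ∃ j, R.rot (T.dart v i) = T.dart v j := by
    intro i
    obtain ⟨w, j, hj⟩ := T.exists_dart (R.rot (T.dart v i))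
    have h2 := R.fst_rot (T.dart v i)
    rw [hj, dart_fst, dart_fst] at h2
    exact ⟨j, by rw [hj, h2]⟩
  choose τ hτ using h1
  have hinj : Function.Injective τ := by
    intro i j hij
    have : R.rot (T.dart v i) = R.rot (T.dart v j) := by rw [hτ, hτ, hij]
    exact (T.dart_inj (R.rot.injective this)).2
  have hfix : ∀ i, τ i ≠ i := by
    intro i hi
    have hf : Function.IsFixedPt R.rot (T.dart v i) := by
      show R.rot (T.dart v i) = T.dart v i
      rw [hτ, hi]
    have hsc := R.cyclic (T.dart v i) (T.dart v (i + 1)) rfl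
    have := (T.dart_inj (hsc.eq_of_left hf)).2
    have hne : ∀ i : Fin 3, i ≠ i + 1 := by decide
    exact hne i this
  have key : ∀ τ : Fin 3 → Fin 3, Function.Injective τ → (∀ i, τ i ≠ i) →
      (∀ i, τ i = i + 1) ∨ (∀ i, τ i = i + 2) := by decide
  rcases key τ hinj hfix with h | h
  · left; intro i; rw [hτ, h]
  · right; intro i; rw [hτ, h]

theorem face_symm (R : RotationSystem T.graph) (d : T.graph.Dart) : R.face d.symm = R.rot d := by
  show R.rot (d.symm.symm) = _
  rw [SimpleGraph.Dart.symm_symm]

theorem code_symm (v : Fin n) (i : Fin 3) :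
    T.code (T.dart v i).symm = 3 * (T.nb v i : ℕ) + (T.bk v i : ℕ) := by
  rw [dart_symm, code_dart]

theorem valid_vrec (R : RotationSystem T.graph) (v : Fin n) :
    Valid R.face T.code (T.vrec v).j0 ∨ Valid R.face T.code (T.vrec v).j1 := by
  rcases T.rot_cases R v with h | h
  · left
    intro p hp
    simp only [VRec.j0, vrec, List.mem_cons, List.not_mem_nil, or_false] at hp
    rcases hp with rfl | rfl | rfl
    · exact ⟨(T.dart v 0).symm, T.code_symm v 0, by rw [face_symm, h, code_dart]; rfl⟩
    · exact ⟨(T.dart v 1).symm, T.code_symm v 1, by rw [face_symm, h, code_dart]; rfl⟩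
    · exact ⟨(T.dart v 2).symm, T.code_symm v 2, by rw [face_symm, h, code_dart]; rfl⟩
  · right
    intro p hp
    simp only [VRec.j1, vrec, List.mem_cons, List.not_mem_nil, or_false] at hp
    rcases hp with rfl | rfl | rfl
    · exact ⟨(T.dart v 0).symm, T.code_symm v 0, by rw [face_symm, h, code_dart]; rfl⟩
    · exact ⟨(T.dart v 1).symm, T.code_symm v 1, by rw [face_symm, h, code_dart]; rfl⟩
    · exact ⟨(T.dart v 2).symm, T.code_symm v 2, by rw [face_symm, h, code_dart]; rfl⟩

/-- The main consequence of a successful search. -/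
theorem faces_bound (t P : ℕ) (L : List VRec) (hL : T.recs = L) (hn : 3 * n ≤ 64)
    (hP : ∀ i < 3 * n, get P i = i) (hnd : (L.flatMap VRec.es).Nodup)
    (hs : srch t (L.flatMap VRec.prs) L [] P P 0 = true) (R : RotationSystem T.graph) :
    R.faceCount < t ∨ (R.faceCount ≤ t ∧ ∃ d : T.graph.Dart, R.face.SameCycle d d.symm) := by
  have hlt : ∀ x, T.code x < 64 := fun x => lt_of_lt_of_le (T.code_lt x) hn
  have hmem : ∀ r ∈ L, ∃ v, r = T.vrec v := by
    intro r hr
    rw [← hL, recs, List.mem_ofFn] at hr
    obtain ⟨v, hv⟩ := hr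
    exact ⟨v, hv.symm⟩
  have hmem' : ∀ v, T.vrec v ∈ L := by
    intro v
    rw [← hL, recs, List.mem_ofFn]
    exact ⟨v, rfl⟩
  have hall : ∀ x : T.graph.Dart, T.code x ∈ L.flatMap VRec.es := by
    intro x
    obtain ⟨v, i, hvi⟩ := T.exists_dart x.symm
    have hx : x = (T.dart v i).symm := by rw [← hvi, SimpleGraph.Dart.symm_symm]
    rw [List.mem_flatMap]
    refine ⟨T.vrec v, hmem' v, ?_⟩
    rw [hx, code_symm]
    fin_cases i <;> simp [VRec.es, vrec]
  have := srch_sound (φ := R.face) (code := T.code) T.code_inj hlt t (fun d => d.symm)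
    (L.flatMap VRec.prs) ?_ L [] ∅ P P 0 ?_ ?_ ?_ hnd ?_ ?_ ?_ hs
  · exact this
  · intro p hp
    rw [List.mem_flatMap] at hp
    obtain ⟨r, hr, hp⟩ := hp
    obtain ⟨v, rfl⟩ := hmem r hr
    simp only [VRec.prs, vrec, List.mem_cons, List.not_mem_nil, or_false] at hp
    rcases hp with rfl | rfl | rfl
    · exact ⟨T.dart v 0, by rw [code_dart]; rfl, T.code_symm v 0⟩
    · exact ⟨T.dart v 1, by rw [code_dart]; rfl, T.code_symm v 1⟩
    · exact ⟨T.dart v 2, by rw [code_dart]; rfl, T.code_symm v 2⟩
  · intro r hr
    obtain ⟨v, rfl⟩ := hmem r hr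
    exact T.valid_vrec R v
  · intro p hp; simp at hp
  · refine ⟨?_, ?_, ?_⟩
    · intro e _
      have h1 := hP _ (T.code_lt e)
      exact ⟨e, h1.symm, h1, SameCycle.refl _ _, by simp⟩
    · intro a _
      have h1 := hP _ (T.code_lt a)
      exact ⟨a, by simp, h1.symm, h1⟩
    · have : closedCycles R.face (∅ : Set T.graph.Dart) = ∅ := by
        ext q
        simp only [Set.mem_empty_iff_false, iff_false]
        intro hq
        obtain ⟨x, hx⟩ := Quotient.exists_rep q
        exact hq x hx
      rw [this]; simp
  · intro m _ x _ hx; exact hx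
  · intro x; right; exact hall x
  · intro x hx; exact absurd hx (by simp)

/-! ### Edge cuts -/

/-- number of edges between `S` and its complement (as ordered pairs with the first vertex in `S`) -/
def cut (S : Finset (Fin n)) : ℕ := (T.graph.interedges S Sᶜ).card

/-- For every vertex the list of its smaller neighbours. -/
def low : List (List ℕ) :=
  List.ofFn (fun v : Fin n => ((List.finRange 3).filter (fun i => T.nb v i < v)).map (fun i => (T.nb v i : ℕ)))

end Tbl

/-- tree search over all vertex sets -/
def cutS : List (List ℕ) → ℕ → (ℕ → Bool) → ℕ → ℕ → ℕ → Bool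
  | [], _, _, c, o, z => Nat.ble 4 c || Nat.beq o 0 || Nat.beq z 0 ||
      ((Nat.ble o 1 || Nat.ble z 1) && Nat.ble 3 c)
  | l :: ls, k, m, c, o, z =>
    Nat.ble 4 c ||
      (cutS ls (k + 1) (fun w => cond (Nat.beq w k) true (m w)) (c + (l.filter (fun w => m w != true)).length)
        (o + 1) z &&
       cutS ls (k + 1) (fun w => cond (Nat.beq w k) false (m w)) (c + (l.filter (fun w => m w != false)).length)
        o (z + 1))

def cnt (ms : ℕ → Bool) : List (List ℕ) → ℕ → ℕ
  | [], _ => 0
  | l :: ls, k => (l.filter (fun w => ms w != ms k)).length + cnt ms ls (k + 1)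

def ones (ms : ℕ → Bool) : List (List ℕ) → ℕ → ℕ
  | [], _ => 0
  | _ :: ls, k => cond (ms k) 1 0 + ones ms ls (k + 1)

def good : List (List ℕ) → ℕ → Bool
  | [], _ => true
  | l :: ls, k => l.all (fun w => Nat.blt w k) && good ls (k + 1)

theorem cnt_comm (ms : ℕ → Bool) (l : List ℕ) (b : Bool) :
    (l.filter (fun w => ms w != b)) = l.filter (fun w => ms w != b) := rfl

theorem cutS_sound (ms : ℕ → Bool) :
    ∀ (ls : List (List ℕ)) (k : ℕ) (m : ℕ → Bool) (c o z : ℕ), (∀ w < k, m w = ms w) →
      good ls k = true → cutS ls k m c o z = true →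
      4 ≤ c + cnt ms ls k ∨ o + ones ms ls k = 0 ∨ z + ones (fun w => !ms w) ls k = 0 ∨
      ((o + ones ms ls k ≤ 1 ∨ z + ones (fun w => !ms w) ls k ≤ 1) ∧ 3 ≤ c + cnt ms ls k) := by
  intro ls
  induction ls with
  | nil =>
    intro k m c o z _ _ h
    simp only [cutS, Bool.or_eq_true, Nat.ble_eq, Bool.and_eq_true] at h
    simp only [cnt, ones, Nat.add_zero]
    rcases h with ((h | h) | h) | h
    · left; exact h
    · right; left; exact Nat.eq_of_beq_eq_true h
    · right; right; left; exact Nat.eq_of_beq_eq_true h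
    · right; right; right; exact h
  | cons l ls ih =>
    intro k m c o z hm hg h
    simp only [good, Bool.and_eq_true, List.all_eq_true] at hg
    simp only [cutS, Bool.or_eq_true, Nat.ble_eq, Bool.and_eq_true] at h
    rcases h with h | ⟨h1, h2⟩
    · left; omega
    · have hl : ∀ b : Bool, (l.filter (fun w => m w != b)) = l.filter (fun w => ms w != b) := by
        intro b
        apply List.filter_congr
        intro w hw
        have hwk : w < k := by
          have := hg.1 w hw
          rw [Nat.blt_eq] at this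
          exact this
        rw [hm w hwk]
      have hm' : ∀ b : Bool, ms k = b → ∀ w < k + 1, cond (Nat.beq w k) b (m w) = ms w := by
        intro b hb w hw
        by_cases hwk : w = k
        · subst hwk; simp [hb]
        · have : Nat.beq w k = false := by
            cases h' : Nat.beq w k
            · rfl
            · exact absurd (Nat.eq_of_beq_eq_true h') hwk
          rw [this, cond_false]
          exact hm w (by omega)
      cases hk : ms k
      · have := ih (k + 1) _ _ _ _ (hm' false hk) hg.2 h2
        rw [hl] at this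
        simp only [cnt, ones, hk, cond_false, Bool.not_false, cond_true]
        rcases this with h3 | h3 | h3 | ⟨h3, h4⟩
        · left; omega
        · right; left; omega
        · right; right; left; omega
        · right; right; right
          refine ⟨?_, by omega⟩
          rcases h3 with h3 | h3
          · left; omega
          · right; omega
      · have := ih (k + 1) _ _ _ _ (hm' true hk) hg.2 h1
        rw [hl] at this
        simp only [cnt, ones, hk, cond_false, Bool.not_true, cond_true]
        rcases this with h3 | h3 | h3 | ⟨h3, h4⟩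
        · left; omega
        · right; left; omega
        · right; right; left; omega
        · right; right; right
          refine ⟨?_, by omega⟩
          rcases h3 with h3 | h3
          · left; omega
          · right; omega

theorem cnt_ofFn (ms : ℕ → Bool) : ∀ (n : ℕ) (f : Fin n → List ℕ) (k : ℕ),
    cnt ms (List.ofFn f) k = ∑ v : Fin n, ((f v).filter (fun w => ms w != ms (k + v))).length := by
  intro n
  induction n with
  | zero => intro f k; simp [cnt]
  | succ n ih =>
    intro f k
    rw [List.ofFn_succ, cnt, ih, Fin.sum_univ_succ]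
    simp only [Fin.val_zero, Nat.add_zero, Fin.val_succ]
    congr 1
    apply Finset.sum_congr rfl
    intro v _
    have : k + 1 + (v : ℕ) = k + ((v : ℕ) + 1) := by omega
    rw [this]

theorem ones_ofFn (ms : ℕ → Bool) : ∀ (n : ℕ) (f : Fin n → List ℕ) (k : ℕ),
    ones ms (List.ofFn f) k = ∑ v : Fin n, (cond (ms (k + v)) 1 0) := by
  intro n
  induction n with
  | zero => intro f k; simp [ones]
  | succ n ih =>
    intro f k
    rw [List.ofFn_succ, ones, ih, Fin.sum_univ_succ]
    simp only [Fin.val_zero, Nat.add_zero, Fin.val_succ]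
    congr 1
    apply Finset.sum_congr rfl
    intro v _
    have : k + 1 + (v : ℕ) = k + ((v : ℕ) + 1) := by omega
    rw [this]

namespace Tbl

variable {n : ℕ} (T : Tbl n)

/-- Every edge cut has at least three edges, and every edge cut with at least two vertices on each side
has at least four edges. -/
theorem cuts (L : List (List ℕ)) (hL : T.low = L) (hg : good L 0 = true)
    (hc : cutS L 0 (fun _ => false) 0 0 0 = true) (S : Finset (Fin n)) (h1 : S.Nonempty)
    (h2 : Sᶜ.Nonempty) :
    3 ≤ (T.graph.interedges S Sᶜ).card ∧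
      (2 ≤ S.card → 2 ≤ Sᶜ.card → 4 ≤ (T.graph.interedges S Sᶜ).card) := by
  classical
  set ms : ℕ → Bool := fun w => decide (∃ h : w < n, (⟨w, h⟩ : Fin n) ∈ S) with hms
  have hmsv : ∀ v : Fin n, ms v = decide (v ∈ S) := by
    intro v
    rw [hms]
    simp only [decide_eq_decide]
    constructor
    · rintro ⟨_, h⟩; exact h
    · intro h; exact ⟨v.isLt, h⟩
  have hmain := cutS_sound ms L 0 (fun _ => false) 0 0 0 (by intro w hw; omega) hg hc
  rw [← hL] at hmain
  have hones : ones ms T.low 0 = S.card := by
    rw [low, ones_ofFn]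
    have : ∀ v : Fin n, (cond (ms (0 + v)) 1 0 : ℕ) = if v ∈ S then 1 else 0 := by
      intro v
      rw [Nat.zero_add, hmsv]
      by_cases h : v ∈ S <;> simp [h]
    rw [Finset.sum_congr rfl (fun v _ => this v)]
    simp
  have hzeros : ones (fun w => !ms w) T.low 0 = Sᶜ.card := by
    rw [low, ones_ofFn]
    have : ∀ v : Fin n, (cond (!ms (0 + v)) 1 0 : ℕ) = if v ∈ Sᶜ then 1 else 0 := by
      intro v
      rw [Nat.zero_add, hmsv]
      by_cases h : v ∈ S <;> simp [h]
    rw [Finset.sum_congr rfl (fun v _ => this v), Finset.sum_ite_mem, Finset.univ_inter]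
    simp
  have hcnt : cnt ms T.low 0 ≤ (T.graph.interedges S Sᶜ).card := by
    rw [low, cnt_ofFn]
    have hsum : ∀ v : Fin n, ((((List.finRange 3).filter (fun i => T.nb v i < v)).map
        (fun i => (T.nb v i : ℕ))).filter (fun w => ms w != ms (0 + v))).length =
        ((Finset.univ : Finset (Fin 3)).filter (fun i => T.nb v i < v ∧
          ¬ (T.nb v i ∈ S ↔ v ∈ S))).card := by
      intro v
      rw [Nat.zero_add, List.filter_map, List.length_map, List.filter_filter]
      have hcard : ∀ p : Fin 3 → Bool, ((List.finRange 3).filter p).length =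
          ((Finset.univ : Finset (Fin 3)).filter (fun i => p i = true)).card := by decide
      rw [hcard]
      congr 1
      apply Finset.filter_congr
      intro i _
      simp only [Function.comp, hmsv, Bool.and_eq_true, bne_iff_ne, ne_eq, decide_eq_decide,
        decide_eq_true_eq]
      tauto
    rw [Finset.sum_congr rfl (fun v _ => hsum v)]
    have hsig : ∑ v : Fin n, ((Finset.univ : Finset (Fin 3)).filter (fun i => T.nb v i < v ∧
          ¬ (T.nb v i ∈ S ↔ v ∈ S))).card =
        ((Finset.univ : Finset (Fin n)).sigma (fun v => (Finset.univ : Finset (Fin 3)).filter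
          (fun i => T.nb v i < v ∧ ¬ (T.nb v i ∈ S ↔ v ∈ S)))).card := by
      rw [Finset.card_sigma]
    rw [hsig]
    apply Finset.card_le_card_of_injOn
      (fun p : (_ : Fin n) × Fin 3 => if p.1 ∈ S then (p.1, T.nb p.1 p.2) else (T.nb p.1 p.2, p.1))
    · rintro ⟨v, i⟩ hp
      simp only [Finset.coe_sigma, Set.mem_sigma_iff, Finset.mem_coe, Finset.mem_univ, true_and,
        Finset.mem_filter] at hp
      by_cases hv : v ∈ S
      · simp only [hv, if_true, Finset.mem_coe, SimpleGraph.mem_interedges_iff, true_and,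
          Finset.mem_compl]
        have hnv : T.nb v i ∉ S := by tauto
        exact ⟨hnv, ⟨i, rfl⟩⟩
      · simp only [hv, if_false, Finset.mem_coe, SimpleGraph.mem_interedges_iff,
          Finset.mem_compl]
        have hnv : T.nb v i ∈ S := by tauto
        exact ⟨hnv, not_false, SimpleGraph.Adj.symm ⟨i, rfl⟩⟩
    · rintro ⟨v, i⟩ hp ⟨w, j⟩ hq heq
      simp only [Finset.coe_sigma, Set.mem_sigma_iff, Finset.mem_coe, Finset.mem_univ, true_and,
        Finset.mem_filter] at hp hq
      have hvw : v = w ∧ T.nb v i = T.nb w j := by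
        by_cases hv : v ∈ S <;> by_cases hw : w ∈ S
        · simp only [hv, hw, if_true, Prod.mk.injEq] at heq
          exact heq
        · simp only [hv, hw, if_true, if_false, Prod.mk.injEq] at heq
          exfalso
          have h3 : T.nb v i < v := hp.1
          have h4 : T.nb w j < w := hq.1
          rw [← heq.1] at h4
          rw [heq.2] at h3
          exact lt_asymm h3 h4
        · simp only [hv, hw, if_true, if_false, Prod.mk.injEq] at heq
          exfalso
          have h3 : T.nb v i < v := hp.1
          have h4 : T.nb w j < w := hq.1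
          rw [← heq.2] at h4
          rw [heq.1] at h3
          exact lt_asymm h3 h4
        · simp only [hv, hw, if_false, Prod.mk.injEq] at heq
          exact ⟨heq.2, heq.1⟩
      obtain ⟨rfl, h5⟩ := hvw
      have := T.inj v i j h5
      rw [this]
  rw [hones, hzeros] at hmain
  have hS : 0 < S.card := Finset.card_pos.2 h1
  have hSc : 0 < Sᶜ.card := Finset.card_pos.2 h2
  rcases hmain with h | h | h | ⟨h, h'⟩
  · exact ⟨by omega, fun _ _ => by omega⟩
  · omega
  · omega
  · exact ⟨by omega, fun _ _ => by omega⟩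

/-- connected, from the cut condition -/
theorem connected_of_cuts [NeZero n] (h : ∀ S : Finset (Fin n), S.Nonempty → Sᶜ.Nonempty →
    0 < (T.graph.interedges S Sᶜ).card) : T.graph.Connected := by
  classical
  have hpre : T.graph.Preconnected := by
    intro u v
    by_contra hcon
    have h1 := h (Finset.univ.filter (fun x => T.graph.Reachable u x)) ⟨u, by simp⟩
      ⟨v, by simpa using hcon⟩
    obtain ⟨⟨a, b⟩, hab⟩ := Finset.card_pos.1 h1
    rw [SimpleGraph.mem_interedges_iff] at hab
    simp only [Finset.mem_filter, Finset.mem_univ, true_and, Finset.mem_compl] at hab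
    exact hab.2.1 (hab.1.trans hab.2.2.reachable)
  exact { preconnected := hpre, nonempty := ⟨⟨0, Nat.pos_of_ne_zero (NeZero.ne n)⟩⟩ }

/-- no bridges, from the cut condition -/
theorem no_bridge_of_cuts (h : ∀ S : Finset (Fin n), S.Nonempty → Sᶜ.Nonempty →
    2 ≤ (T.graph.interedges S Sᶜ).card) (e : Sym2 (Fin n)) : ¬ T.graph.IsBridge e := by
  classical
  induction e using Sym2.ind with
  | _ u v =>
    intro hb
    rw [SimpleGraph.isBridge_iff] at hb
    have h1 := h (Finset.univ.filter
      (fun x => (T.graph.deleteEdges {s(u, v)}).Reachable u x)) ⟨u, by simp⟩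
      ⟨v, by simpa using hb⟩
    have h2 : T.graph.interedges (Finset.univ.filter
        (fun x => (T.graph.deleteEdges {s(u, v)}).Reachable u x))
        (Finset.univ.filter
        (fun x => (T.graph.deleteEdges {s(u, v)}).Reachable u x))ᶜ ⊆ {(u, v)} := by
      rintro ⟨a, b⟩ hab
      rw [SimpleGraph.mem_interedges_iff] at hab
      simp only [Finset.mem_filter, Finset.mem_univ, true_and, Finset.mem_compl] at hab
      obtain ⟨ha, hb', hadj⟩ := hab
      have hmem : s(a, b) = s(u, v) := by
        by_contra hne
        apply hb'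
        apply ha.trans
        apply SimpleGraph.Adj.reachable
        rw [SimpleGraph.deleteEdges_adj]
        refine ⟨hadj, ?_⟩
        intro h5
        exact hne h5
      rw [Finset.mem_singleton]
      rcases Sym2.eq_iff.1 hmem with ⟨h6, h7⟩ | ⟨h6, h7⟩
      · rw [h6, h7]
      · exfalso
        subst h6 h7
        exact hb' (SimpleGraph.Reachable.refl _)
    have h3 := Finset.card_le_card h2
    rw [Finset.card_singleton] at h3
    omega


theorem card_nbhd (v : Fin n) : Nat.card (T.graph.neighborSet v) = 3 := by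
  have h : T.graph.neighborSet v = Set.range (T.nb v) := by
    ext w
    rw [SimpleGraph.mem_neighborSet, Set.mem_range]
    rfl
  rw [h, Nat.card_range_of_injective (fun i j h => T.inj v i j h), Nat.card_eq_fintype_card,
    Fintype.card_fin]

/-- the darts are the pairs (vertex, index) -/
noncomputable def dartEquiv : Fin n × Fin 3 ≃ T.graph.Dart :=
  Equiv.ofBijective (fun p => T.dart p.1 p.2) (by
    constructor
    · rintro ⟨v, i⟩ ⟨w, j⟩ h
      obtain ⟨h1, h2⟩ := T.dart_inj h
      exact Prod.ext h1 h2
    · intro d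
      obtain ⟨v, i, h⟩ := T.exists_dart d
      exact ⟨(v, i), h.symm⟩)

theorem dartEquiv_apply (v : Fin n) (i : Fin 3) : T.dartEquiv (v, i) = T.dart v i := rfl

theorem card_edges : 2 * Nat.card T.graph.edgeSet = 3 * n := by
  classical
  have h1 := T.graph.dart_card_eq_twice_card_edges
  have h2 : Fintype.card T.graph.Dart = n * 3 := by
    rw [← Fintype.card_congr T.dartEquiv, Fintype.card_prod, Fintype.card_fin, Fintype.card_fin]
  have h3 : Nat.card T.graph.edgeSet = T.graph.edgeFinset.card := by
    rw [Nat.card_eq_fintype_card, SimpleGraph.edgeFinset_card]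
  rw [h3, ← h1, h2]
  ring

/-- the rotation system with the rotation `i ↦ i + s v` at `v`, where `s v` is 1 or 2 -/
noncomputable def rotOf (s : Fin n → Fin 3) (hs : ∀ v, s v ≠ 0) : RotationSystem T.graph where
  rot := T.dartEquiv.permCongr
    ⟨fun p => (p.1, p.2 + s p.1), fun p => (p.1, p.2 - s p.1),
      fun p => by simp, fun p => by simp⟩
  fst_rot d := by
    obtain ⟨v, i, rfl⟩ := T.exists_dart d
    rw [← dartEquiv_apply, Equiv.permCongr_apply, Equiv.symm_apply_apply]
    rfl
  cyclic d d' h := by
    obtain ⟨v, i, rfl⟩ := T.exists_dart d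
    obtain ⟨w, j, rfl⟩ := T.exists_dart d'
    have hvw : v = w := h
    subst hvw
    have key : ∀ s i j : Fin 3, s ≠ 0 → j = i ∨ j = i + s ∨ j = i + s + s := by decide
    have hr : ∀ i : Fin 3, T.dartEquiv.permCongr
        ⟨fun p => (p.1, p.2 + s p.1), fun p => (p.1, p.2 - s p.1),
          fun p => by simp, fun p => by simp⟩ (T.dart v i) = T.dart v (i + s v) := by
      intro i
      rw [← dartEquiv_apply, Equiv.permCongr_apply, Equiv.symm_apply_apply]
      rfl
    rcases key (s v) i j (hs v) with h1 | h1 | h1
    · rw [h1]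
    · refine ⟨1, ?_⟩
      rw [zpow_one, hr, h1]
    · refine ⟨2, ?_⟩
      rw [h1, show ((2 : ℤ)) = ((2 : ℕ) : ℤ) from rfl, zpow_natCast, pow_two, Equiv.Perm.mul_apply,
        hr, hr]

theorem rotOf_rot (s : Fin n → Fin 3) (hs : ∀ v, s v ≠ 0) (v : Fin n) (i : Fin 3) :
    (T.rotOf s hs).rot (T.dart v i) = T.dart v (i + s v) := by
  show T.dartEquiv.permCongr _ (T.dart v i) = _
  rw [← dartEquiv_apply, Equiv.permCongr_apply, Equiv.symm_apply_apply]
  rfl

/-- lower bound for the number of faces by a colouring of the darts -/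
theorem le_faceCount (s : Fin n → Fin 3) (hs : ∀ v, s v ≠ 0) (m : ℕ) (col : Fin n → Fin 3 → Fin m)
    (hcol : ∀ v i, col (T.nb v i) (T.bk v i + s (T.nb v i)) = col v i)
    (hsurj : ∀ c, ∃ v i, col v i = c) : m ≤ (T.rotOf s hs).faceCount := by
  set R := T.rotOf s hs
  have hface : ∀ v i, R.face (T.dart v i) = T.dart (T.nb v i) (T.bk v i + s (T.nb v i)) := by
    intro v i
    show R.rot (T.dart v i).symm = _
    rw [dart_symm, rotOf_rot]
  let C : T.graph.Dart → Fin m := fun d => col (T.dartEquiv.symm d).1 (T.dartEquiv.symm d).2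
  have hC : ∀ v i, C (T.dart v i) = col v i := by
    intro v i
    show col (T.dartEquiv.symm (T.dart v i)).1 (T.dartEquiv.symm (T.dart v i)).2 = _
    rw [← dartEquiv_apply, Equiv.symm_apply_apply]
  have hC1 : ∀ d, C (R.face d) = C d := by
    intro d
    obtain ⟨v, i, rfl⟩ := T.exists_dart d
    rw [hface, hC, hC, hcol]
  have hCn : ∀ (k : ℕ) d, C ((R.face ^ k) d) = C d := by
    intro k
    induction k with
    | zero => intro d; simp
    | succ k ih => intro d; rw [pow_succ', Equiv.Perm.mul_apply, hC1, ih]
  have hCs : ∀ d d', R.face.SameCycle d d' → C d = C d' := by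
    intro d d' h
    obtain ⟨k, _, hk⟩ := h.exists_pow_eq'
    rw [← hk, hCn]
  let F : Quotient (SameCycle.setoid R.face) → Fin m := Quotient.lift C (fun a b h => hCs a b h)
  have hF : Function.Surjective F := by
    intro c
    obtain ⟨v, i, h⟩ := hsurj c
    exact ⟨Quotient.mk _ (T.dart v i), by show C (T.dart v i) = c; rw [hC, h]⟩
  have := Nat.card_le_card_of_surjective F hF
  rw [Nat.card_eq_fintype_card, Fintype.card_fin] at this
  exact this

end Tbl

end Helper183.MG
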